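import Mathlib
import Pool.Agent.Helper2.Genus.Defs
import Pool.Agent.Helper50.Ends.Defs

/-!
# Length functions: induction from a subgroup of finite index, and the mapping class group
-/

set_option autoImplicit false

open Topology unitInterval Set Filter

namespace Pool.Agent.Helper2.Planar

open Pool.Agent.Helper2.Genus Pool.Agent.Helper50.Ends

section Algebra

variable {G : Type*} [Group G]

/-- `ℓ` is a length function on the subgroup `K₀`. -/
structure IsLen (ℓ : G → ℝ) (K₀ : Subgroup G) : Prop where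
  one : ℓ 1 = 0
  inv : ∀ g ∈ K₀, ℓ g⁻¹ = ℓ g
  mul : ∀ g ∈ K₀, ∀ h ∈ K₀, ℓ (g * h) ≤ ℓ g + ℓ h

variable {ℓ : G → ℝ} {K₀ : Subgroup G}

lemma IsLen.nonneg (hℓ : IsLen ℓ K₀) {g : G} (hg : g ∈ K₀) : 0 ≤ ℓ g := by
  have h1 := hℓ.mul g hg g⁻¹ (K₀.inv_mem hg)
  rw [mul_inv_cancel, hℓ.one, hℓ.inv g hg] at h1
  linarith

lemma out_mem (g : G) (q : G ⧸ K₀) : (g • q).out⁻¹ * g * q.out ∈ K₀ := by
  rw [mul_assoc, ← QuotientGroup.eq, QuotientGroup.out_eq']
  conv_lhs => rw [← QuotientGroup.out_eq' q]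
  rfl

/-- The induced length function. -/
noncomputable def ind (ℓ : G → ℝ) (K₀ : Subgroup G) [Fintype (G ⧸ K₀)] (g : G) : ℝ :=
  ∑ q : G ⧸ K₀, ℓ ((g • q).out⁻¹ * g * q.out)

variable [Fintype (G ⧸ K₀)]

lemma IsLen.ind (hℓ : IsLen ℓ K₀) : IsLen (ind ℓ K₀) ⊤ where
  one := by
    apply Finset.sum_eq_zero
    intro q _
    rw [one_smul, mul_one, inv_mul_cancel, hℓ.one]
  inv := by
    intro g _
    have h1 : Planar.ind ℓ K₀ g⁻¹ = ∑ q : G ⧸ K₀, ℓ ((g⁻¹ • (g • q)).out⁻¹ * g⁻¹ * (g • q).out) :=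
      (Equiv.sum_comp (MulAction.toPerm g) (fun q : G ⧸ K₀ =>
        ℓ ((g⁻¹ • q).out⁻¹ * g⁻¹ * q.out))).symm
    rw [h1]
    apply Finset.sum_congr rfl
    intro q _
    rw [inv_smul_smul, ← hℓ.inv _ (out_mem g q)]
    congr 1
    group
  mul := by
    intro g _ h _
    have h1 : Planar.ind ℓ K₀ g = ∑ q : G ⧸ K₀, ℓ ((g • (h • q)).out⁻¹ * g * (h • q).out) :=
      (Equiv.sum_comp (MulAction.toPerm h) (fun q : G ⧸ K₀ =>
        ℓ ((g • q).out⁻¹ * g * q.out))).symm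
    rw [h1, Planar.ind, Planar.ind, ← Finset.sum_add_distrib]
    refine Finset.sum_le_sum fun q _ => ?_
    have h2 := hℓ.mul _ (out_mem g (h • q)) _ (out_mem h q)
    have h3 : ((g * h) • q).out⁻¹ * (g * h) * q.out =
        ((g • h • q).out⁻¹ * g * (h • q).out) * ((h • q).out⁻¹ * h * q.out) := by
      rw [mul_smul]
      group
    rw [h3]
    exact h2

lemma IsLen.le_ind (hℓ : IsLen ℓ K₀) : ∃ C : ℝ, ∀ g ∈ K₀, ℓ g ≤ Planar.ind ℓ K₀ g + C := by
  set q₀ : G ⧸ K₀ := ((1 : G) : G ⧸ K₀) with hq₀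
  have hs : q₀.out ∈ K₀ := by
    have h1 : ((1 : G) : G ⧸ K₀) = (q₀.out : G ⧸ K₀) := (QuotientGroup.out_eq' q₀).symm
    have h2 := QuotientGroup.eq.mp h1
    rwa [inv_one, one_mul] at h2
  refine ⟨2 * ℓ q₀.out, fun g hg => ?_⟩
  have hgq : g • q₀ = q₀ := by
    have h1 : g • q₀ = ((g * 1 : G) : G ⧸ K₀) := rfl
    rw [h1, hq₀, QuotientGroup.eq, mul_one, mul_one]
    exact K₀.inv_mem hg
  have h1 : ℓ ((g • q₀).out⁻¹ * g * q₀.out) ≤ Planar.ind ℓ K₀ g :=
    Finset.single_le_sum (f := fun q : G ⧸ K₀ => ℓ ((g • q).out⁻¹ * g * q.out))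
      (fun q _ => hℓ.nonneg (out_mem g q)) (Finset.mem_univ q₀)
  have hm := out_mem g q₀ (K₀ := K₀)
  rw [hgq] at h1 hm
  have h2 : g = q₀.out * (q₀.out⁻¹ * g * q₀.out) * q₀.out⁻¹ := by group
  have h3 := hℓ.mul _ (K₀.mul_mem hs hm) _ (K₀.inv_mem hs)
  have h4 := hℓ.mul _ hs _ hm
  rw [← h2, hℓ.inv _ hs] at h3
  linarith

end Algebra

section Near

variable {G : Type*} [Group G] [TopologicalSpace G] {ℓ : G → ℝ} {K₀ : Subgroup G}
  [Fintype (G ⧸ K₀)]

lemma ind_near (hnear : ∀ᶠ g in 𝓝 (1 : G), g ∈ K₀ ∧ ℓ g = 0)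
    (hconj : ∀ s : G, Tendsto (fun g => s⁻¹ * g * s) (𝓝 1) (𝓝 1)) :
    ∀ᶠ g in 𝓝 (1 : G), ind ℓ K₀ g = 0 := by
  have h1 : ∀ᶠ g in 𝓝 (1 : G), ∀ q ∈ (Finset.univ : Finset (G ⧸ K₀)),
      q.out⁻¹ * g * q.out ∈ K₀ ∧ ℓ (q.out⁻¹ * g * q.out) = 0 :=
    (Finset.eventually_all _).mpr fun q _ => (hconj q.out).eventually hnear
  filter_upwards [h1] with g hg
  apply Finset.sum_eq_zero
  intro q hq
  obtain ⟨h2, h3⟩ := hg q hq
  have h4 : g • q = q := by
    have e1 : g • q = ((g * q.out : G) : G ⧸ K₀) := by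
      conv_lhs => rw [← QuotientGroup.out_eq' q]
      rfl
    rw [e1]
    conv_rhs => rw [← QuotientGroup.out_eq' q]
    symm
    rw [QuotientGroup.eq, ← mul_assoc]
    exact h2
  rw [h4]
  exact h3

end Near

section Mcg

variable {Y : Type*} [TopologicalSpace Y]

lemma continuous_left (s : Y ≃ₜ Y) : Continuous (fun g : Y ≃ₜ Y => s * g) := by
  have h : Continuous (fun g : Y ≃ₜ Y => (⟨g, g.continuous⟩ : C(Y, Y))) :=
    continuous_induced_dom
  refine continuous_induced_rng.mpr ?_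
  exact (ContinuousMap.continuous_postcomp (⟨s, s.continuous⟩ : C(Y, Y))).comp h

lemma continuous_right (s : Y ≃ₜ Y) : Continuous (fun g : Y ≃ₜ Y => g * s) := by
  have h : Continuous (fun g : Y ≃ₜ Y => (⟨g, g.continuous⟩ : C(Y, Y))) :=
    continuous_induced_dom
  refine continuous_induced_rng.mpr ?_
  exact (ContinuousMap.continuous_precomp (⟨s, s.continuous⟩ : C(Y, Y))).comp h

lemma tendsto_conj (s : Y ≃ₜ Y) :
    Tendsto (fun g : Y ≃ₜ Y => s⁻¹ * g * s) (𝓝 1) (𝓝 1) := by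
  have h : Tendsto (fun g : Y ≃ₜ Y => s⁻¹ * g * s) (𝓝 1) (𝓝 (s⁻¹ * 1 * s)) :=
    ((continuous_right s).comp (continuous_left s⁻¹)).tendsto 1
  rwa [mul_one, inv_mul_cancel] at h

variable {ℓ : (Y ≃ₜ Y) → ℝ} (hℓ : IsLen ℓ ⊤) (hnear : ∀ᶠ g in 𝓝 (1 : Y ≃ₜ Y), ℓ g = 0)

include hℓ in
lemma len_mul_eq {g h : Y ≃ₜ Y} (hh : ℓ h = 0) : ℓ (g * h) = ℓ g := by
  apply le_antisymm
  · have := hℓ.mul g trivial h trivial
    rwa [hh, add_zero] at this
  · have := hℓ.mul (g * h) trivial h⁻¹ trivial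
    rwa [hℓ.inv h trivial, hh, add_zero, mul_inv_cancel_right] at this

include hnear in
lemma eventually_left (s : Y ≃ₜ Y) : ∀ᶠ g in 𝓝 s, ℓ (s⁻¹ * g) = 0 := by
  have h := (continuous_left s⁻¹).tendsto s
  rw [inv_mul_cancel] at h
  exact h.eventually hnear

include hℓ hnear in
lemma len_isotopic {u : Y ≃ₜ Y} (hu : u ∈ isotopySubgroup Y) : ℓ u = 0 := by
  obtain ⟨F, hF, hF0, hF1⟩ := hu
  have hc : Continuous F := by
    refine continuous_induced_rng.mpr ?_
    exact (ContinuousMap.curry ⟨fun p : I × Y => F p.1 p.2, hF⟩).continuous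
  have hloc : IsLocallyConstant (fun t => ℓ (F t)) := by
    rw [IsLocallyConstant.iff_eventually_eq]
    intro t
    filter_upwards [hc.continuousAt.eventually (eventually_left hnear (F t))] with t' ht'
    have : F t' = F t * ((F t)⁻¹ * F t') := by group
    rw [this]
    exact len_mul_eq hℓ ht'
  have := hloc.apply_eq_of_preconnectedSpace 0 1
  rw [hF0, hF1, hℓ.one] at this
  exact this.symm

include hℓ hnear in
/-- A length function on the group of homeomorphisms which vanishes near the identity defines a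
pseudometric on the mapping class group. -/
theorem exists_pseudometric (H : Subgroup (Y ≃ₜ Y)) :
    ∃ δ : LeftPseudometric (MCG H), ∀ g h : H,
      δ.d (g : MCG H) (h : MCG H) = ℓ ((g : Y ≃ₜ Y)⁻¹ * h) := by
  have hwd : ∀ g h : H, (g : MCG H) = (h : MCG H) → ℓ (g : Y ≃ₜ Y) = ℓ (h : Y ≃ₜ Y) := by
    intro g h hgh
    have h1 := QuotientGroup.eq.mp hgh
    have h2 : ((g⁻¹ * h : H) : Y ≃ₜ Y) ∈ isotopySubgroup Y := h1
    have h3 : (h : Y ≃ₜ Y) = (g : Y ≃ₜ Y) * ((g⁻¹ * h : H) : Y ≃ₜ Y) := by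
      push_cast
      group
    rw [h3, len_mul_eq hℓ (len_isotopic hℓ hnear h2)]
  let L : MCG H → ℝ := fun x => ℓ (x.out : Y ≃ₜ Y)
  have hL : ∀ g : H, L (g : MCG H) = ℓ (g : Y ≃ₜ Y) := fun g =>
    hwd _ _ (QuotientGroup.out_eq' _)
  have L1 : L 1 = 0 := by
    have := hL 1
    rw [QuotientGroup.mk_one] at this
    rw [this]
    exact hℓ.one
  have Linv : ∀ x, L x⁻¹ = L x := by
    intro x
    induction x using QuotientGroup.induction_on with
    | H g =>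
      rw [← QuotientGroup.mk_inv, hL, hL]
      exact hℓ.inv _ trivial
  have Lmul : ∀ x y, L (x * y) ≤ L x + L y := by
    intro x y
    induction x using QuotientGroup.induction_on with
    | H g =>
      induction y using QuotientGroup.induction_on with
      | H h =>
        rw [← QuotientGroup.mk_mul, hL, hL, hL]
        exact hℓ.mul _ trivial _ trivial
  have Lnonneg : ∀ x, 0 ≤ L x := by
    intro x
    have := Lmul x x⁻¹
    rw [mul_inv_cancel, L1, Linv] at this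
    linarith
  have Lnear : ∀ x₀ : MCG H, ∀ᶠ x in 𝓝 x₀, L (x₀⁻¹ * x) = 0 := by
    intro x₀
    induction x₀ using QuotientGroup.induction_on with
    | H g₀ =>
      have hopen : IsOpen {x : MCG H | L ((g₀ : MCG H)⁻¹ * x) = 0} := by
        refine isOpen_coinduced.mpr ?_
        rw [isOpen_iff_mem_nhds]
        intro h hh
        have hh' : L ((g₀ : MCG H)⁻¹ * (h : MCG H)) = 0 := hh
        rw [← QuotientGroup.mk_inv, ← QuotientGroup.mk_mul, hL] at hh'
        have h1 := (continuous_subtype_val.tendsto h).eventually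
          (eventually_left hnear (h : Y ≃ₜ Y))
        filter_upwards [h1] with h' hh''
        change L ((g₀ : MCG H)⁻¹ * (h' : MCG H)) = 0
        rw [← QuotientGroup.mk_inv, ← QuotientGroup.mk_mul, hL]
        have e1 : ((g₀⁻¹ * h' : H) : Y ≃ₜ Y) = ((g₀⁻¹ * h : H) : Y ≃ₜ Y) *
            ((h : Y ≃ₜ Y)⁻¹ * (h' : Y ≃ₜ Y)) := by
          push_cast
          group
        rw [e1, len_mul_eq hℓ hh'', hh']
      refine hopen.mem_nhds ?_
      change L ((g₀ : MCG H)⁻¹ * (g₀ : MCG H)) = 0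
      rw [inv_mul_cancel, L1]
  have Lcongr : ∀ x y z, L x = 0 → L z = 0 → L (x⁻¹ * y * z) = L y := by
    intro x y z hx hz
    apply le_antisymm
    · have e1 := Lmul (x⁻¹ * y) z
      have e2 := Lmul x⁻¹ y
      rw [Linv] at e2
      linarith
    · have e1 := Lmul x (x⁻¹ * y * z * z⁻¹)
      have e2 := Lmul (x⁻¹ * y * z) z⁻¹
      rw [Linv] at e2
      have e3 : x * (x⁻¹ * y * z * z⁻¹) = y := by group
      rw [e3] at e1
      linarith
  refine ⟨⟨fun x y => L (x⁻¹ * y), ?_, ?_, ?_, ?_, ?_⟩, ?_⟩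
  · intro x
    rw [inv_mul_cancel, L1]
  · intro x y
    rw [← Linv]
    congr 1
    group
  · intro x y z
    have : x⁻¹ * z = (x⁻¹ * y) * (y⁻¹ * z) := by group
    rw [this]
    exact Lmul _ _
  · intro g x y
    congr 1
    group
  · rw [continuous_iff_continuousAt]
    rintro ⟨x, y⟩
    have : ∀ᶠ p : MCG H × MCG H in 𝓝 (x, y), L (p.1⁻¹ * p.2) = L (x⁻¹ * y) := by
      filter_upwards [(Lnear x).prod_nhds (Lnear y)] with p hp
      have e : p.1⁻¹ * p.2 = (x⁻¹ * p.1)⁻¹ * (x⁻¹ * y) * (y⁻¹ * p.2) := by group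
      rw [e]
      exact Lcongr _ _ _ hp.1 hp.2
    exact (continuousAt_const (y := L (x⁻¹ * y))).congr (this.mono fun p hp => hp.symm)
  · intro g h
    change L ((g : MCG H)⁻¹ * (h : MCG H)) = _
    rw [← QuotientGroup.mk_inv, ← QuotientGroup.mk_mul, hL]
    rfl

end Mcg

end Pool.Agent.Helper2.Planar
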