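import Mathlib
import Pool.Agent.Helper2.Genus.Circle

/-!
# Compact totally disconnected sets do not separate connected open sets of the plane
-/

set_option autoImplicit false

open Topology unitInterval Set Metric

namespace Pool.Agent.Helper2.Planar

open Pool.Agent.Helper2.Genus

/-- Circle-valued functions lift on convex open sets of the plane. -/
lemma exists_lift_on {s : Set ℂ} (hs : IsOpen s) (hc : Convex ℝ s) {f : ℂ → UnitAddCircle}
    (hf : ContinuousOn f s) :
    ∃ φ : ℂ → ℝ, ContinuousOn φ s ∧ ∀ z ∈ s, ((φ z : ℝ) : UnitAddCircle) = f z := by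
  rcases s.eq_empty_or_nonempty with rfl | ⟨z₀, hz₀⟩
  · exact ⟨0, continuousOn_const, by simp⟩
  have : Nonempty s := ⟨⟨z₀, hz₀⟩⟩
  have : ContractibleSpace s := hc.contractibleSpace ⟨z₀, hz₀⟩
  have : LocallyPathConnectedSpace s := hs.locallyPathConnectedSpace
  let g : C(s, UnitAddCircle) := ⟨s.domRestrict f, hf.domRestrict⟩
  obtain ⟨e₀, -, he₀⟩ := AddCircle.eq_coe_Ico (p := (1 : ℝ)) (g ⟨z₀, hz₀⟩)
  obtain ⟨φ, ⟨-, hφ⟩, -⟩ := isCov.existsUnique_continuousMap_lifts g ⟨z₀, hz₀⟩ e₀ he₀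
  classical
  refine ⟨fun z => if h : z ∈ s then φ ⟨z, h⟩ else 0, ?_, ?_⟩
  · rw [continuousOn_iff_continuous_domRestrict]
    have : s.domRestrict (fun z => if h : z ∈ s then φ ⟨z, h⟩ else 0) = φ := by
      ext z
      rw [domRestrict_apply, dif_pos z.2]
    rw [this]
    exact φ.continuous
  · intro z hz
    simp only [dif_pos hz]
    exact congr_fun hφ ⟨z, hz⟩

lemma isPreconnected_compl_closedBall (c : ℂ) {r : ℝ} (hr : 0 ≤ r) :
    IsPreconnected (closedBall c r)ᶜ := by
  have himg : (closedBall c r)ᶜ =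
      (fun p : ℝ × ℝ => c + p.1 * Complex.exp (p.2 * Complex.I)) '' (Ioi r ×ˢ univ) := by
    ext z
    simp only [mem_compl_iff, mem_closedBall, not_le, mem_image, mem_prod, mem_Ioi, mem_univ,
      and_true, Prod.exists]
    constructor
    · intro hz
      refine ⟨dist z c, (z - c).arg, hz, ?_⟩
      rw [dist_eq_norm, Complex.norm_mul_exp_arg_mul_I]
      ring
    · rintro ⟨s, t, hs, rfl⟩
      rw [dist_eq_norm, add_sub_cancel_left, norm_mul, Complex.norm_exp_ofReal_mul_I, mul_one,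
        Complex.norm_real, Real.norm_eq_abs, abs_of_pos (hr.trans_lt hs)]
      exact hs
  rw [himg]
  refine (isPreconnected_Ioi.prod isPreconnected_univ).image _ ?_
  fun_prop

lemma isPreconnected_punctured_ball (c : ℂ) {r : ℝ} :
    IsPreconnected (ball c r \ {c}) := by
  have himg : ball c r \ {c} =
      (fun p : ℝ × ℝ => c + p.1 * Complex.exp (p.2 * Complex.I)) '' (Ioo 0 r ×ˢ univ) := by
    ext z
    simp only [mem_sdiff, mem_ball, mem_singleton_iff, mem_image, mem_prod, mem_Ioo, mem_univ,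
      and_true, Prod.exists]
    constructor
    · rintro ⟨hz, hne⟩
      refine ⟨dist z c, (z - c).arg, ⟨dist_pos.mpr hne, hz⟩, ?_⟩
      rw [dist_eq_norm, Complex.norm_mul_exp_arg_mul_I]
      ring
    · rintro ⟨s, t, ⟨hs0, hs⟩, rfl⟩
      have hd : dist (c + s * Complex.exp (t * Complex.I)) c = s := by
        rw [dist_eq_norm, add_sub_cancel_left, norm_mul, Complex.norm_exp_ofReal_mul_I, mul_one,
          Complex.norm_real, Real.norm_eq_abs, abs_of_pos hs0]
      refine ⟨by rw [hd]; exact hs, fun h => ?_⟩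
      rw [← dist_eq_zero, hd] at h
      exact hs0.ne' h
  rw [himg]
  refine (isPreconnected_Ioo.prod isPreconnected_univ).image _ ?_
  fun_prop

/-- A cutoff function. -/
lemma exists_cutoff {K U : Set ℂ} (hK : IsCompact K) (hU : IsOpen U) (hKU : K ⊆ U) :
    ∃ (ρ : C(ℂ, ℝ)) (W V : Set ℂ), IsOpen W ∧ K ⊆ W ∧ W ⊆ U ∧ (∀ z ∈ W, ρ z = 1) ∧ IsOpen V ∧
      Uᶜ ⊆ V ∧ (∀ z ∈ V, ρ z = 0) := by
  obtain ⟨W, hWo, hKW, hWU, hWc⟩ := exists_open_between_and_isCompact_closure hK hU hKU
  obtain ⟨W', hWo', hKW', hWU', hWc'⟩ := exists_open_between_and_isCompact_closure hWc hU hWU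
  obtain ⟨f, hf0, hf1, -⟩ := exists_continuous_zero_one_of_isClosed
    (s := W'ᶜ) (t := closure W) hWo'.isClosed_compl isClosed_closure
    (disjoint_compl_left_iff_subset.mpr hKW')
  refine ⟨f, W, (closure W')ᶜ, hWo, hKW, subset_closure.trans hWU, fun z hz => hf1 (subset_closure hz),
    isClosed_closure.isOpen_compl, compl_subset_compl.mpr hWU', fun z hz => hf0 ?_⟩
  exact fun h => hz (subset_closure h)

/-- **One step.** Remove a small compact piece from the set across which an integer-valued locally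
constant function may jump. -/
lemma one_step {N K₁ K₂ : Set ℂ} (hN : IsOpen N) (hK₁ : IsCompact K₁) (hK₂ : IsClosed K₂)
    (hd : Disjoint K₁ K₂) (hK₁N : K₁ ⊆ N) {c : ℂ} {ε : ℝ} (hε : 0 ≤ ε) (hb : K₁ ⊆ ball c ε)
    (f : ℂ → ℝ) (hf : ContinuousOn f (N \ (K₁ ∪ K₂)))
    (hint : ∀ z ∈ N \ (K₁ ∪ K₂), ∃ n : ℤ, f z = n) :
    ∃ g : ℂ → ℝ, ContinuousOn g (N \ K₂) ∧ (∀ z ∈ N \ K₂, ∃ n : ℤ, g z = n) ∧
      ∀ z ∈ N \ (K₁ ∪ K₂), z ∉ closedBall c ε → g z = f z := by
  classical
  have hUo : IsOpen (N ∩ K₂ᶜ ∩ ball c ε) := (hN.inter hK₂.isOpen_compl).inter isOpen_ball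
  have hKU : K₁ ⊆ N ∩ K₂ᶜ ∩ ball c ε := fun z hz =>
    ⟨⟨hK₁N hz, fun h => hd.le_bot ⟨hz, h⟩⟩, hb hz⟩
  set U := N ∩ K₂ᶜ ∩ ball c ε with hUdef
  obtain ⟨ρ, W, V, hWo, hKW, hWU, hρW, hVo, hUV, hρV⟩ := exists_cutoff hK₁ hUo hKU
  have hUsub : U \ K₁ ⊆ N \ (K₁ ∪ K₂) := by
    rintro z ⟨⟨⟨h1, h2⟩, h3⟩, h4⟩
    exact ⟨h1, fun h => h.elim h4 h2⟩
  have hopen1 : IsOpen (N \ (K₁ ∪ K₂)) := hN.sdiff (hK₁.isClosed.union hK₂)
  -- the circle-valued function
  let G : ℂ → UnitAddCircle := fun z => if z ∈ U \ K₁ then ((ρ z * f z : ℝ) : UnitAddCircle) else 0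
  have hGW : ∀ z ∈ W, G z = 0 := by
    intro z hz
    by_cases h : z ∈ U \ K₁
    · obtain ⟨n, hn⟩ := hint z (hUsub h)
      simp only [G, if_pos h, hρW z hz, one_mul, hn]
      exact (AddCircle.coe_eq_zero_iff (1 : ℝ)).mpr ⟨n, by simp⟩
    · simp only [G, if_neg h]
  have hGV : ∀ z ∈ V, G z = 0 := by
    intro z hz
    by_cases h : z ∈ U \ K₁
    · simp only [G, if_pos h, hρV z hz, zero_mul, AddCircle.coe_zero]
    · simp only [G, if_neg h]
  have hGc : Continuous G := by
    rw [continuous_iff_continuousAt]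
    intro z
    by_cases hz1 : z ∈ K₁
    · have : G =ᶠ[𝓝 z] fun _ => 0 := by
        filter_upwards [hWo.mem_nhds (hKW hz1)] with w hw using hGW w hw
      exact continuousAt_const.congr this.symm
    by_cases hz2 : z ∈ U
    · have hmem : U \ K₁ ∈ 𝓝 z := (hUo.sdiff hK₁.isClosed).mem_nhds ⟨hz2, hz1⟩
      have : G =ᶠ[𝓝 z] fun z => ((ρ z * f z : ℝ) : UnitAddCircle) := by
        filter_upwards [hmem] with w hw
        simp only [G, if_pos hw]
      refine ContinuousAt.congr ?_ this.symm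
      have hfc : ContinuousAt f z := hf.continuousAt (hopen1.mem_nhds (hUsub ⟨hz2, hz1⟩))
      exact ContinuousAt.comp (g := ((↑) : ℝ → UnitAddCircle))
        (AddCircle.continuous_mk' (1 : ℝ)).continuousAt
        (ρ.continuous.continuousAt.mul hfc)
    · have : G =ᶠ[𝓝 z] fun _ => 0 := by
        filter_upwards [hVo.mem_nhds (hUV hz2)] with w hw using hGV w hw
      exact continuousAt_const.congr this.symm
  obtain ⟨F₀, hF₀c, hF₀⟩ := exists_lift_on isOpen_univ convex_univ (f := G) hGc.continuousOn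
  -- normalise
  have hout : ∀ z ∉ closedBall c ε, G z = 0 := by
    intro z hz
    have h : z ∉ U \ K₁ := fun h => hz (ball_subset_closedBall h.1.2)
    simp only [G, if_neg h]
  have hintG : ∀ z, G z = 0 → ∃ n : ℤ, F₀ z = n := by
    intro z hz
    have := exists_int_of_coe_eq (s := F₀ z) (t := 0) (by rw [hF₀ z (mem_univ z), hz]; simp)
    simpa using this
  obtain ⟨m, hm⟩ : ∃ m : ℤ, ∀ z ∉ closedBall c ε, F₀ z = m := by
    obtain ⟨z₁, hz₁⟩ : ((closedBall c ε)ᶜ).Nonempty := by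
      refine ⟨c + (ε + 1 : ℝ), ?_⟩
      rw [mem_compl_iff, mem_closedBall, dist_eq_norm, add_sub_cancel_left, Complex.norm_real,
        Real.norm_eq_abs, abs_of_nonneg (by linarith)]
      linarith
    obtain ⟨m, hm⟩ := hintG z₁ (hout z₁ hz₁)
    refine ⟨m, fun z hz => ?_⟩
    rw [← hm]
    exact const_of_int (isPreconnected_compl_closedBall c hε) F₀ (hF₀c.mono (subset_univ _))
      (fun w hw => hintG w (hout w hw)) hz hz₁
  let F : ℂ → ℝ := fun z => F₀ z - m
  have hFc : Continuous F := (continuousOn_univ.mp hF₀c).sub continuous_const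
  have hFG : ∀ z, ((F z : ℝ) : UnitAddCircle) = G z := by
    intro z
    have hmz : ((m : ℝ) : UnitAddCircle) = 0 :=
      (AddCircle.coe_eq_zero_iff (1 : ℝ)).mpr ⟨m, by simp⟩
    simp only [F, AddCircle.coe_sub, hF₀ z (mem_univ z), hmz, sub_zero]
  have hFout : ∀ z ∉ closedBall c ε, F z = 0 := by
    intro z hz
    simp only [F, hm z hz, sub_self]
  have hFint : ∀ z, G z = 0 → ∃ n : ℤ, F z = n := by
    intro z hz
    obtain ⟨n, hn⟩ := hintG z hz
    exact ⟨n - m, by simp only [F, hn]; push_cast; ring⟩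
  refine ⟨fun z => (1 - ρ z) * f z + F z, ?_, ?_, ?_⟩
  · rintro z ⟨hzN, hz2⟩
    by_cases hz1 : z ∈ K₁
    · have : (fun z => (1 - ρ z) * f z + F z) =ᶠ[𝓝 z] F := by
        filter_upwards [hWo.mem_nhds (hKW hz1)] with w hw
        rw [hρW w hw]; ring
      exact (hFc.continuousAt.congr this.symm).continuousWithinAt
    · have hz : z ∈ N \ (K₁ ∪ K₂) := ⟨hzN, fun h => h.elim hz1 hz2⟩
      have hfc : ContinuousAt f z := hf.continuousAt (hopen1.mem_nhds hz)
      exact (((continuousAt_const.sub ρ.continuous.continuousAt).mul hfc).add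
        hFc.continuousAt).continuousWithinAt
  · rintro z ⟨hzN, hz2⟩
    by_cases hz1 : z ∈ K₁
    · obtain ⟨n, hn⟩ := hFint z (hGW z (hKW hz1))
      exact ⟨n, by simp only [hρW z (hKW hz1), hn]; ring⟩
    · have hz : z ∈ N \ (K₁ ∪ K₂) := ⟨hzN, fun h => h.elim hz1 hz2⟩
      obtain ⟨k, hk⟩ := hint z hz
      by_cases hzU : z ∈ U
      · have h1 : G z = ((ρ z * f z : ℝ) : UnitAddCircle) := by
          simp only [G, if_pos (show z ∈ U \ K₁ from ⟨hzU, hz1⟩)]
        obtain ⟨n, hn⟩ := exists_int_of_coe_eq (s := F z) (t := ρ z * f z) (by rw [hFG, h1])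
        refine ⟨k + n, ?_⟩
        push_cast
        rw [← hn, ← hk]
        ring
      · have hρ0 : ρ z = 0 := hρV z (hUV hzU)
        have h1 : G z = 0 := hGV z (hUV hzU)
        obtain ⟨n, hn⟩ := hFint z h1
        refine ⟨k + n, ?_⟩
        push_cast
        rw [hρ0, hn, hk]
        ring
  · intro z hz hzb
    have hzU : z ∉ U := fun h => hzb (ball_subset_closedBall h.2)
    simp only [hρV z (hUV hzU), hFout z hzb]
    ring

/-- Partition of a compact totally disconnected set into small compact pieces: the pieces are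
given as a list of sets `P i`, and unions of pieces are compact. -/
lemma exists_partition {K : Set ℂ} (hK : IsCompact K) (htd : IsTotallyDisconnected K)
    (U : ℂ → Set ℂ) (hU : ∀ x ∈ K, IsOpen (U x) ∧ x ∈ U x) :
    ∃ (n : ℕ) (P : Fin n → Set ℂ) (c : Fin n → ℂ), (⋃ i, P i) = K ∧ (∀ i, IsCompact (P i)) ∧
      (∀ i, c i ∈ K ∧ P i ⊆ U (c i)) ∧ Pairwise (fun i j => Disjoint (P i) (P j)) := by
  classical
  have : CompactSpace K := isCompact_iff_compactSpace.mp hK
  have : TotallyDisconnectedSpace K := totallyDisconnectedSpace_subtype_iff.mpr htd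
  have h1 : ∀ x : K, ∃ V : Set K, IsClopen V ∧ x ∈ V ∧ V ⊆ Subtype.val ⁻¹' (U x) := by
    intro x
    obtain ⟨hUo, hxU⟩ := hU x x.2
    exact compact_exists_isClopen_in_isOpen (hUo.preimage continuous_subtype_val) hxU
  choose V hVc hxV hVU using h1
  obtain ⟨t, ht⟩ := isCompact_univ.elim_finite_subcover V (fun x => (hVc x).isOpen)
    (fun x _ => mem_iUnion.mpr ⟨x, hxV x⟩)
  let e := t.equivFin
  let Q : Fin t.card → Set K := fun i => V (e.symm i).1
  have hQc : ∀ i, IsClopen (Q i) := fun i => hVc _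
  let R : Fin t.card → Set K := fun i => Q i \ ⋃ j : {j : Fin t.card // j < i}, Q j.1
  have hRc : ∀ i, IsClopen (R i) := fun i =>
    (hQc i).diff (isClopen_iUnion_of_finite fun j => hQc j.1)
  refine ⟨t.card, fun i => Subtype.val '' (R i), fun i => ((e.symm i).1 : K).1, ?_, ?_, ?_, ?_⟩
  · apply Subset.antisymm
    · refine iUnion_subset fun i => ?_
      rintro _ ⟨y, -, rfl⟩
      exact y.2
    · intro x hx
      have hx' : (⟨x, hx⟩ : K) ∈ ⋃ y ∈ t, V y := ht (mem_univ _)
      obtain ⟨y, hy, hxy⟩ := mem_iUnion₂.mp hx'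
      -- least index
      have hex : ∃ i : Fin t.card, (⟨x, hx⟩ : K) ∈ Q i := ⟨e ⟨y, hy⟩, by simpa [Q] using hxy⟩
      let S : Finset (Fin t.card) := Finset.univ.filter (fun i => (⟨x, hx⟩ : K) ∈ Q i)
      have hS : S.Nonempty := by
        obtain ⟨i, hi⟩ := hex
        exact ⟨i, by simp [S, hi]⟩
      have hmin := S.min'_mem hS
      rw [Finset.mem_filter] at hmin
      refine mem_iUnion.mpr ⟨S.min' hS, ⟨x, hx⟩, ⟨hmin.2, ?_⟩, rfl⟩
      intro hmem
      obtain ⟨j, hj⟩ := mem_iUnion.mp hmem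
      have hjS : j.1 ∈ S := by simp [S, hj]
      exact absurd (S.min'_le _ hjS) (not_le.mpr j.2)
  · intro i
    exact (hRc i).isClosed.isCompact.image continuous_subtype_val
  · intro i
    refine ⟨((e.symm i).1 : K).2, ?_⟩
    rintro _ ⟨y, hy, rfl⟩
    exact hVU _ hy.1
  · have key : ∀ i j : Fin t.card, i < j →
        Disjoint (Subtype.val '' (R i) : Set ℂ) (Subtype.val '' (R j)) := by
      intro i j hij
      rw [disjoint_left]
      rintro _ ⟨y, hy, rfl⟩ ⟨y', hy', he⟩
      have : y' = y := Subtype.ext he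
      subst this
      exact hy'.2 (mem_iUnion.mpr ⟨⟨i, hij⟩, hy.1⟩)
    intro i j hij
    rcases lt_or_gt_of_ne hij with h | h
    · exact key i j h
    · exact (key j i h).symm

/-- **Theorem T.** A compact totally disconnected set does not separate a connected open set. -/
theorem isPreconnected_diff {N K : Set ℂ} (hN : IsOpen N) (hNc : IsPreconnected N)
    (hK : IsCompact K) (htd : IsTotallyDisconnected K) (hKN : K ⊆ N) :
    IsPreconnected (N \ K) := by
  classical
  apply isPreconnected_of_forall_constant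
  intro χ hχ x hx y hy
  -- the real-valued function
  let f : ℂ → ℝ := fun z => if χ z then 1 else 0
  have hfc : ContinuousOn f (N \ K) := by
    have : Continuous (fun b : Bool => if b then (1 : ℝ) else 0) := continuous_of_discreteTopology
    exact this.comp_continuousOn hχ
  have hfint : ∀ z ∈ N \ K, ∃ n : ℤ, f z = n := by
    intro z _
    by_cases h : χ z = true
    · exact ⟨1, by simp [f, h]⟩
    · exact ⟨0, by simp [f, h]⟩
  -- small radius
  obtain ⟨ε, hε, hεx⟩ : ∃ ε > 0, ∀ z ∈ K, x ∉ closedBall z ε ∧ y ∉ closedBall z ε := by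
    have h1 : ∃ ε > 0, ∀ z ∈ K, x ∉ closedBall z ε := by
      obtain ⟨ε, hε, h⟩ := Metric.isOpen_iff.mp hK.isClosed.isOpen_compl x hx.2
      refine ⟨ε / 2, half_pos hε, fun z hz hxz => ?_⟩
      have : z ∈ ball x ε := by
        rw [mem_ball, dist_comm]
        exact lt_of_le_of_lt hxz (by linarith)
      exact h this hz
    have h2 : ∃ ε > 0, ∀ z ∈ K, y ∉ closedBall z ε := by
      obtain ⟨ε, hε, h⟩ := Metric.isOpen_iff.mp hK.isClosed.isOpen_compl y hy.2
      refine ⟨ε / 2, half_pos hε, fun z hz hxz => ?_⟩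
      have : z ∈ ball y ε := by
        rw [mem_ball, dist_comm]
        exact lt_of_le_of_lt hxz (by linarith)
      exact h this hz
    obtain ⟨ε₁, h1, h1'⟩ := h1
    obtain ⟨ε₂, h2, h2'⟩ := h2
    refine ⟨min ε₁ ε₂, lt_min h1 h2, fun z hz => ⟨fun h => h1' z hz ?_, fun h => h2' z hz ?_⟩⟩
    · exact closedBall_subset_closedBall (min_le_left _ _) h
    · exact closedBall_subset_closedBall (min_le_right _ _) h
  obtain ⟨n, P, c, hPK, hPc, hPb, hPd⟩ := exists_partition hK htd (fun z => ball z ε)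
    (fun z _ => ⟨isOpen_ball, mem_ball_self hε⟩)
  -- remove the pieces one by one
  have key : ∀ s : Finset (Fin n), ∃ g : ℂ → ℝ, ContinuousOn g (N \ ⋃ i ∈ sᶜ, P i) ∧
      (∀ z ∈ N \ ⋃ i ∈ sᶜ, P i, ∃ n : ℤ, g z = n) ∧ g x = f x ∧ g y = f y := by
    intro s
    induction s using Finset.induction_on with
    | empty =>
      have : (⋃ i ∈ (∅ : Finset (Fin n))ᶜ, P i) = K := by simpa using hPK
      rw [this]
      exact ⟨f, hfc, hfint, rfl, rfl⟩
    | insert i s hi ih =>
      obtain ⟨g, hg1, hg2, hg3, hg4⟩ := ih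
      have hsplit : (⋃ k ∈ sᶜ, P k) = P i ∪ ⋃ k ∈ (insert i s)ᶜ, P k := by
        ext z
        simp only [mem_iUnion, Finset.mem_compl, mem_union, Finset.mem_insert, not_or]
        constructor
        · rintro ⟨k, hk, hz⟩
          by_cases hki : k = i
          · left; rwa [← hki]
          · right; exact ⟨k, ⟨hki, hk⟩, hz⟩
        · rintro (hz | ⟨k, hk, hz⟩)
          · exact ⟨i, hi, hz⟩
          · exact ⟨k, hk.2, hz⟩
      have hcl : IsClosed (⋃ k ∈ (insert i s)ᶜ, P k) :=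
        (isClosed_biUnion_finset fun k _ => (hPc k).isClosed)
      have hdj : Disjoint (P i) (⋃ k ∈ (insert i s)ᶜ, P k) := by
        rw [disjoint_iUnion₂_right]
        intro k hk
        apply hPd
        rintro rfl
        simp at hk
      rw [hsplit] at hg1 hg2
      obtain ⟨g', h1, h2, h3⟩ := one_step hN (hPc i) hcl hdj
        ((subset_iUnion P i).trans (hPK.le.trans hKN)) hε.le (hPb i).2 g hg1 hg2
      have hxmem : ∀ w ∈ N \ K, w ∈ N \ (P i ∪ ⋃ k ∈ (insert i s)ᶜ, P k) := by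
        rintro w ⟨hw1, hw2⟩
        refine ⟨hw1, fun h => hw2 ?_⟩
        rw [← hsplit] at h
        obtain ⟨k, -, hk⟩ := mem_iUnion₂.mp h
        rw [← hPK]
        exact mem_iUnion.mpr ⟨k, hk⟩
      refine ⟨g', h1, h2, ?_, ?_⟩
      · rw [h3 x (hxmem x hx) (hεx _ (hPb i).1).1, hg3]
      · rw [h3 y (hxmem y hy) (hεx _ (hPb i).1).2, hg4]
  obtain ⟨g, hg1, hg2, hg3, hg4⟩ := key Finset.univ
  have : (N \ ⋃ i ∈ (Finset.univ : Finset (Fin n))ᶜ, P i) = N := by simp
  rw [this] at hg1 hg2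
  have hxy : g x = g y := const_of_int hNc g hg1 hg2 hx.1 hy.1
  rw [hg3, hg4] at hxy
  simp only [f] at hxy
  by_cases h1 : χ x = true
  · by_cases h2 : χ y = true
    · rw [h1, h2]
    · simp [h1, h2] at hxy
  · by_cases h2 : χ y = true
    · simp [h1, h2] at hxy
    · rw [Bool.not_eq_true] at h1 h2
      rw [h1, h2]

end Pool.Agent.Helper2.Planar
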