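import Mathlib
import Pool.Agent.Helper2.Planar.TotDisc

/-!
# The angle function and circle-valued functions on the punctured plane
-/

set_option autoImplicit false

open Topology unitInterval Set Metric

namespace Pool.Agent.Helper2.Planar

open Pool.Agent.Helper2.Genus

/-- The angle of a complex number, as an element of `ℝ/ℤ`. -/
noncomputable def ang (w : ℂ) : UnitAddCircle :=
  AddCircle.homeomorphAddCircle (2 * Real.pi) (1 : ℝ) Real.two_pi_pos.ne' one_ne_zero
    ((w.arg : ℝ) : Real.Angle)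

lemma ang_eq (w : ℂ) : ang w = ((w.arg * ((2 * Real.pi)⁻¹ * 1) : ℝ) : UnitAddCircle) := rfl

lemma ang_continuousAt {w : ℂ} (hw : w ≠ 0) : ContinuousAt ang w :=
  (AddCircle.homeomorphAddCircle (2 * Real.pi) (1 : ℝ) Real.two_pi_pos.ne'
    one_ne_zero).continuous.continuousAt.comp (Complex.continuousAt_arg_coe_angle hw)

lemma ang_continuousOn (p : ℂ) : ContinuousOn (fun z => ang (z - p)) {p}ᶜ := by
  intro z hz
  have h1 : z - p ≠ 0 := sub_ne_zero.mpr hz
  have h2 : ContinuousAt (fun z => z - p) z := by fun_prop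
  exact (ContinuousAt.comp (f := fun z => z - p) (x := z) (g := ang)
    (ang_continuousAt h1) h2).continuousWithinAt

lemma toCircle_ang {w : ℂ} (hw : w ≠ 0) :
    ((AddCircle.toCircle (ang w) : Circle) : ℂ) = w / ‖w‖ := by
  rw [ang_eq, AddCircle.toCircle_apply_mk, Circle.coe_exp]
  have h1 : (2 * Real.pi / 1 * (w.arg * ((2 * Real.pi)⁻¹ * 1)) : ℝ) = w.arg := by
    field_simp
  rw [h1]
  have h2 := Complex.norm_mul_exp_arg_mul_I w
  have h3 : (‖w‖ : ℂ) ≠ 0 := by simpa using hw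
  rw [eq_div_iff h3, mul_comm]
  exact h2

lemma ang_toCircle (x : UnitAddCircle) {r : ℝ} (hr : 0 < r) :
    ang (r * ((AddCircle.toCircle x : Circle) : ℂ)) = x := by
  have hne : (r * ((AddCircle.toCircle x : Circle) : ℂ)) ≠ 0 := by
    refine mul_ne_zero (by exact_mod_cast hr.ne') (Circle.coe_ne_zero _)
  have h1 := toCircle_ang hne
  rw [norm_mul, Circle.norm_coe, mul_one, Complex.norm_real, Real.norm_eq_abs, abs_of_pos hr,
    mul_div_assoc, mul_div_cancel₀] at h1
  · exact AddCircle.injective_toCircle one_ne_zero (Circle.coe_injective h1)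
  · exact_mod_cast hr.ne'

/-- The circle of radius `r` around `p`. -/
noncomputable def circ (p : ℂ) (r : ℝ) (x : UnitAddCircle) : ℂ :=
  p + r * ((AddCircle.toCircle x : Circle) : ℂ)

lemma circ_continuous (p : ℂ) (r : ℝ) : Continuous (circ p r) := by
  unfold circ
  have : Continuous (fun x : UnitAddCircle => ((AddCircle.toCircle x : Circle) : ℂ)) :=
    continuous_subtype_val.comp AddCircle.continuous_toCircle
  fun_prop

lemma circ_ang (p : ℂ) {r : ℝ} (hr : 0 < r) (x : UnitAddCircle) : ang (circ p r x - p) = x := by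
  unfold circ
  rw [add_sub_cancel_left, ang_toCircle x hr]

lemma dist_circ (p : ℂ) {r : ℝ} (hr : 0 < r) (x : UnitAddCircle) : dist (circ p r x) p = r := by
  unfold circ
  rw [dist_eq_norm, add_sub_cancel_left, norm_mul, Circle.norm_coe, mul_one, Complex.norm_real,
    Real.norm_eq_abs, abs_of_pos hr]

/-- Every circle-valued function on a punctured plane is a multiple of the angle plus a liftable
function. -/
theorem circle_punctured (p : ℂ) {f : ℂ → UnitAddCircle} (hf : ContinuousOn f {p}ᶜ) :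
    ∃ (k : ℤ) (ψ : ℂ → ℝ), ContinuousOn ψ {p}ᶜ ∧
      ∀ z ≠ p, f z = k • ang (z - p) + ((ψ z : ℝ) : UnitAddCircle) := by
  let Y := ({p}ᶜ : Set ℂ)
  have hfac : ∀ q : I × Y, 0 < (1 - (q.1 : ℝ)) / ‖(q.2 : ℂ) - p‖ + (q.1 : ℝ) := by
    intro q
    have hpos : 0 < ‖(q.2 : ℂ) - p‖ := norm_pos_iff.mpr (sub_ne_zero.mpr q.2.2)
    rcases eq_or_lt_of_le q.1.2.1 with h | h
    · rw [← h]
      simp only [sub_zero, add_zero]
      positivity
    · have : 0 ≤ (1 - (q.1 : ℝ)) / ‖(q.2 : ℂ) - p‖ := div_nonneg (by linarith [q.1.2.2]) hpos.le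
      linarith
  let F : C(I × Y, Y) :=
    ⟨fun q => ⟨p + ((1 - (q.1 : ℝ)) / ‖(q.2 : ℂ) - p‖ + (q.1 : ℝ) : ℝ) * ((q.2 : ℂ) - p), by
      intro h
      rw [mem_singleton_iff, add_eq_left, mul_eq_zero] at h
      rcases h with h | h
      · exact (hfac q).ne' (by exact_mod_cast h)
      · exact sub_ne_zero.mpr q.2.2 h⟩, by
      refine Continuous.subtype_mk ?_ _
      have h1 : Continuous (fun q : I × Y => ((q.2 : ℂ) - p)) := by fun_prop
      have h2 : Continuous (fun q : I × Y => (1 - (q.1 : ℝ)) / ‖(q.2 : ℂ) - p‖ + (q.1 : ℝ)) := by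
        refine Continuous.add (Continuous.div (by fun_prop) (by fun_prop) ?_) (by fun_prop)
        intro q
        exact norm_ne_zero_iff.mpr (sub_ne_zero.mpr q.2.2)
      exact continuous_const.add ((Complex.continuous_ofReal.comp h2).mul h1)⟩
  let g : C(Y, UnitAddCircle) := ⟨Y.domRestrict f, hf.domRestrict⟩
  let c : C(UnitAddCircle, Y) := ⟨fun x => ⟨circ p 1 x, by
    intro h
    rw [mem_singleton_iff, ← dist_eq_zero, dist_circ p one_pos] at h
    exact one_ne_zero h⟩, by
    exact Continuous.subtype_mk (circ_continuous p 1) _⟩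
  let a : C(Y, UnitAddCircle) := ⟨Y.domRestrict (fun z => ang (z - p)),
    (ang_continuousOn p).domRestrict⟩
  obtain ⟨φ₁, hφ₁⟩ := mem_liftable_iff.mp (liftable_sub_of_homotopy F g)
  obtain ⟨k, hk⟩ := exists_degree (g.comp c)
  obtain ⟨φ₂, hφ₂⟩ := mem_liftable_iff.mp hk
  classical
  let ψ' : C(Y, ℝ) := φ₁ + φ₂.comp a
  refine ⟨k, fun z => if h : z ∈ Y then ψ' ⟨z, h⟩ else 0, ?_, ?_⟩
  · rw [continuousOn_iff_continuous_domRestrict]
    have : Y.domRestrict (fun z => if h : z ∈ Y then ψ' ⟨z, h⟩ else 0) = ψ' := by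
      ext z
      rw [domRestrict_apply, dif_pos z.2]
    rw [this]
    exact ψ'.continuous
  · intro z hz
    have hzY : z ∈ Y := hz
    simp only [dif_pos hzY]
    have e1 := hφ₁ ⟨z, hzY⟩
    have e2 := hφ₂ (a ⟨z, hzY⟩)
    have e3 : F (1, ⟨z, hzY⟩) = ⟨z, hzY⟩ := by
      apply Subtype.ext
      simp [F]
    have e4 : F (0, ⟨z, hzY⟩) = c (a ⟨z, hzY⟩) := by
      apply Subtype.ext
      change p + ((1 - ((0 : I) : ℝ)) / ‖z - p‖ + ((0 : I) : ℝ) : ℝ) * (z - p) =
        circ p 1 (ang (z - p))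
      unfold circ
      rw [toCircle_ang (sub_ne_zero.mpr hz)]
      simp only [Icc.coe_zero, sub_zero, add_zero]
      push_cast
      ring
    simp only [ContinuousMap.sub_apply, ContinuousMap.comp_apply, ContinuousMap.coe_mk,
      ContinuousMap.smul_apply, ContinuousMap.id_apply] at e1 e2
    rw [e3, e4] at e1
    change g ⟨z, hzY⟩ = k • a ⟨z, hzY⟩ + _
    have e5 : ((ψ' ⟨z, hzY⟩ : ℝ) : UnitAddCircle) = ((φ₁ ⟨z, hzY⟩ : ℝ) : UnitAddCircle) +
        ((φ₂ (a ⟨z, hzY⟩) : ℝ) : UnitAddCircle) := by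
      rw [← AddCircle.coe_add]
      rfl
    rw [e5, e1, e2]
    abel

/-- A correction of the angle function which vanishes near `K`. -/
theorem exists_kappa {K : Set ℂ} (hK : IsCompact K) (htd : IsTotallyDisconnected K) {p : ℂ}
    (hp : p ∉ K) :
    ∃ (κ : ℂ → ℝ) (O : Set ℂ), ContinuousOn κ {p}ᶜ ∧ IsOpen O ∧ K ⊆ O ∧ p ∉ O ∧
      ∀ z ∈ O, ang (z - p) + ((κ z : ℝ) : UnitAddCircle) = 0 := by
  classical
  obtain ⟨n, P, c, hPK, hPc, hPb, hPd⟩ := exists_partition hK htd (fun z => ball z (dist z p))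
    (fun z hz => ⟨isOpen_ball, mem_ball_self (dist_pos.mpr (fun h => hp (h ▸ hz)))⟩)
  have hpb : ∀ i, ball (c i) (dist (c i) p) ⊆ {p}ᶜ := by
    intro i z hz hzp
    rw [mem_singleton_iff] at hzp
    rw [hzp, mem_ball, dist_comm] at hz
    exact lt_irrefl _ hz
  have key : ∀ s : Finset (Fin n), ∃ (κ : ℂ → ℝ) (O : Set ℂ), ContinuousOn κ {p}ᶜ ∧ IsOpen O ∧
      (⋃ i ∈ s, P i) ⊆ O ∧ p ∉ O ∧
      ∀ z ∈ O, ang (z - p) + ((κ z : ℝ) : UnitAddCircle) = 0 := by
    intro s
    induction s using Finset.induction_on with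
    | empty => exact ⟨0, ∅, continuousOn_const, isOpen_empty, by simp, by simp, by simp⟩
    | insert i s hi ih =>
      obtain ⟨κ, O, hκ, hO, hsO, hpO, hzero⟩ := ih
      obtain ⟨b, hb, hb2⟩ := exists_lift_on (f := fun z => ang (z - p) +
        ((κ z : ℝ) : UnitAddCircle)) isOpen_ball (convex_ball (c i) (dist (c i) p))
        (((ang_continuousOn p).add ((AddCircle.continuous_mk' (1 : ℝ)).comp_continuousOn hκ)).mono
          (hpb i))
      have hrest : IsClosed (⋃ j ∈ s, P j) := isClosed_biUnion_finset fun k _ => (hPc k).isClosed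
      have hUo : IsOpen (ball (c i) (dist (c i) p) ∩ (⋃ j ∈ s, P j)ᶜ) :=
        isOpen_ball.inter hrest.isOpen_compl
      have hPU : P i ⊆ ball (c i) (dist (c i) p) ∩ (⋃ j ∈ s, P j)ᶜ := by
        intro z hz
        refine ⟨(hPb i).2 hz, fun h => ?_⟩
        obtain ⟨j, hj, hzj⟩ := mem_iUnion₂.mp h
        have hij : i ≠ j := by rintro rfl; exact hi hj
        exact (hPd hij).le_bot ⟨hz, hzj⟩
      obtain ⟨ρ, W, V, hWo, hPW, hWU, hρW, hVo, hUV, hρV⟩ := exists_cutoff (hPc i) hUo hPU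
      refine ⟨fun z => κ z - ρ z * b z, W ∪ (O ∩ V), ?_, hWo.union (hO.inter hVo), ?_, ?_, ?_⟩
      · intro z hz
        refine (hκ z hz).sub ?_
        by_cases hzb : z ∈ ball (c i) (dist (c i) p)
        · have : ContinuousAt b z := hb.continuousAt (isOpen_ball.mem_nhds hzb)
          exact (ρ.continuous.continuousAt.mul this).continuousWithinAt
        · have hzV : z ∈ V := hUV (fun h => hzb h.1)
          have : (fun z => ρ z * b z) =ᶠ[𝓝 z] fun _ => 0 := by
            filter_upwards [hVo.mem_nhds hzV] with w hw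
            rw [hρV w hw, zero_mul]
          exact (continuousAt_const.congr this.symm).continuousWithinAt
      · intro z hz
        obtain ⟨j, hj, hzj⟩ := mem_iUnion₂.mp hz
        rcases Finset.mem_insert.mp hj with rfl | hj
        · exact Or.inl (hPW hzj)
        · right
          refine ⟨hsO (mem_iUnion₂.mpr ⟨j, hj, hzj⟩), hUV (fun h => h.2 ?_)⟩
          exact mem_iUnion₂.mpr ⟨j, hj, hzj⟩
      · rintro (h | h)
        · exact hpb i (hWU h).1 rfl
        · exact hpO h.1
      · rintro z (hz | hz)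
        · have h1 := hb2 z (hWU hz).1
          change ang (z - p) + ((κ z - ρ z * b z : ℝ) : UnitAddCircle) = 0
          rw [hρW z hz, one_mul, AddCircle.coe_sub, h1]
          abel
        · change ang (z - p) + ((κ z - ρ z * b z : ℝ) : UnitAddCircle) = 0
          rw [hρV z hz.2, zero_mul, sub_zero]
          exact hzero z hz.1
  obtain ⟨κ, O, h1, h2, h3, h4, h5⟩ := key Finset.univ
  refine ⟨κ, O, h1, h2, ?_, h4, h5⟩
  rw [← hPK]
  simpa using h3

end Pool.Agent.Helper2.Planar
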