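import Mathlib
import Pool.Agent.Helper2.Genus.Defs

/-!
# Ends of open subsets of compact spaces, and homeomorphisms
-/

set_option autoImplicit false

open Topology unitInterval Set Filter

namespace Pool.Agent.Helper2.Planar

open Pool.Agent.Helper2.Genus

/-- If `h` is close to the identity then the preimage of `K` is contained in `O`. -/
lemma eventually_preimage_subset {Y : Type*} [TopologicalSpace Y] [T2Space Y]
    [LocallyCompactSpace Y] [LocallyConnectedSpace Y] {K O : Set Y} (hK : IsCompact K)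
    (hO : IsOpen O) (hKO : K ⊆ O) : ∀ᶠ g : Y ≃ₜ Y in 𝓝 1, ∀ y, g y ∈ K → y ∈ O := by
  -- local data
  have hloc : ∀ x : Y, ∃ C P : Set Y, x ∈ K → (IsOpen C ∧ IsCompact (closure C) ∧ C ⊆ O ∧
      IsOpen P ∧ x ∈ P ∧ IsPreconnected (closure P) ∧ closure P ⊆ C) := by
    intro x
    by_cases hx : x ∈ K
    · obtain ⟨C, hCo, hxC, hCO, hCc⟩ := exists_open_between_and_isCompact_closure
        (isCompact_singleton (x := x)) hO (singleton_subset_iff.mpr (hKO hx))
      rw [singleton_subset_iff] at hxC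
      obtain ⟨V, hVx, hVcl, hVC⟩ := exists_mem_nhds_isClosed_subset (hCo.mem_nhds hxC)
      obtain ⟨P, hP1, hP2, hP3, hP4⟩ := locallyConnectedSpace_iff_subsets_isOpen_isConnected.mp
        inferInstance x V hVx
      exact ⟨C, P, fun _ => ⟨hCo, hCc, subset_closure.trans hCO, hP2, hP3,
        hP4.isPreconnected.closure, (closure_minimal hP1 hVcl).trans hVC⟩⟩
    · exact ⟨∅, ∅, fun h => absurd h hx⟩
  choose C P hCP using hloc
  obtain ⟨t, htK, ht⟩ := hK.elim_nhds_subcover P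
    (fun x hx => (hCP x hx).2.2.2.1.mem_nhds (hCP x hx).2.2.2.2.1)
  have hind : Continuous (fun g : Y ≃ₜ Y => (⟨g, g.continuous⟩ : C(Y, Y))) :=
    continuous_induced_dom
  have h1 : ∀ x ∈ t, ∀ᶠ g : Y ≃ₜ Y in 𝓝 1, MapsTo g (frontier (C x)) (closure (P x))ᶜ := by
    intro x hx
    obtain ⟨hCo, hCc, hCO, hPo, hxP, hPc, hPC⟩ := hCP x (htK x hx)
    have hcomp : IsCompact (frontier (C x)) := hCc.of_isClosed_subset isClosed_frontier
      frontier_subset_closure
    have hopen := (ContinuousMap.isOpen_setOfPred_mapsTo hcomp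
      (isClosed_closure (s := P x)).isOpen_compl).preimage hind
    refine hopen.mem_nhds ?_
    intro y hy hy2
    have : y ∈ C x := hPC hy2
    rw [hCo.frontier_eq] at hy
    exact hy.2 this
  have h2 : ∀ x ∈ t, ∀ᶠ g : Y ≃ₜ Y in 𝓝 1, g x ∈ P x := by
    intro x hx
    obtain ⟨hCo, hCc, hCO, hPo, hxP, hPc, hPC⟩ := hCP x (htK x hx)
    have hopen := (ContinuousMap.isOpen_setOfPred_mapsTo (isCompact_singleton (x := x))
      hPo).preimage hind
    have := hopen.mem_nhds (x := (1 : Y ≃ₜ Y)) (by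
      intro y hy
      rw [mem_singleton_iff] at hy
      rw [hy]
      exact hxP)
    filter_upwards [this] with g hg
    exact hg (mem_singleton x)
  filter_upwards [(Finset.eventually_all t).mpr h1, (Finset.eventually_all t).mpr h2]
    with g hg1 hg2 y hy
  obtain ⟨x, hx, hyx⟩ := mem_iUnion₂.mp (ht hy)
  obtain ⟨hCo, hCc, hCO, hPo, hxP, hPc, hPC⟩ := hCP x (htK x hx)
  have hpre : IsPreconnected (g.symm '' closure (P x)) :=
    hPc.image _ g.symm.continuous.continuousOn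
  have hcover : g.symm '' closure (P x) ⊆ C x ∪ (closure (C x))ᶜ := by
    rintro _ ⟨w, hw, rfl⟩
    by_contra hz
    rw [mem_union, not_or, mem_compl_iff, not_not] at hz
    have hfr : g.symm w ∈ frontier (C x) := by
      rw [hCo.frontier_eq]
      exact ⟨hz.2, hz.1⟩
    have := hg1 x hx hfr
    rw [g.apply_symm_apply] at this
    exact this hw
  have hsub := hpre.subset_left_of_subset_union hCo isClosed_closure.isOpen_compl
    (disjoint_compl_right.mono_left subset_closure) hcover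
    ⟨x, ⟨g x, subset_closure (hg2 x hx), g.symm_apply_apply x⟩, hPC (subset_closure hxP)⟩
  exact hCO (hsub ⟨g y, subset_closure hyx, g.symm_apply_apply y⟩)

section Ends

variable {S X : Type*} [TopologicalSpace S] [TopologicalSpace X] [CompactSpace X] [T2Space X]

/-- The hypotheses on the pair `(X, S)`: the points of `X` outside of the open subset `S` are the
ends of `S`. -/
structure EndData (ι : S → X) : Prop where
  emb : IsOpenEmbedding ι
  lc : ∀ e ∉ range ι, ∀ U ∈ 𝓝 e, ∃ N ∈ 𝓝 e, N ⊆ U ∧ IsPreconnected (ι ⁻¹' N)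
  sep : ∀ e ∉ range ι, ∀ U ∈ 𝓝 e, ∃ V, IsOpen V ∧ e ∈ V ∧ V ⊆ U ∧ frontier V ⊆ range ι
  dense : ∀ e ∉ range ι, (comap ι (𝓝 e)).NeBot

variable {ι : S → X} (D : EndData ι)

include D

omit [CompactSpace X] in
lemma EndData.leaves {e : X} (he : e ∉ range ι) {K : Set S} (hK : IsCompact K) :
    ∀ᶠ x in comap ι (𝓝 e), x ∉ K := by
  have h1 : IsClosed (ι '' K) := (hK.image D.emb.continuous).isClosed
  have h2 : (ι '' K)ᶜ ∈ 𝓝 e := h1.isOpen_compl.mem_nhds (fun h => he (image_subset_range _ _ h))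
  filter_upwards [preimage_mem_comap h2] with x hx hxK
  exact hx ⟨x, hxK, rfl⟩

omit [T2Space X] in
lemma EndData.compact_frontier {V : Set X} (hV : frontier V ⊆ range ι) :
    IsCompact (ι ⁻¹' frontier V) :=
  (D.emb.isInducing.isCompact_preimage_iff hV).mpr isClosed_frontier.isCompact

omit [CompactSpace X] in
lemma EndData.unique {e e' e'' : X} (he : e ∉ range ι) {f : S → S}
    (h1 : Tendsto f (comap ι (𝓝 e)) (comap ι (𝓝 e')))
    (h2 : Tendsto f (comap ι (𝓝 e)) (comap ι (𝓝 e''))) : e' = e'' := by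
  have := D.dense e he
  rw [tendsto_comap_iff] at h1 h2
  exact tendsto_nhds_unique h1 h2

/-- A homeomorphism extends to the ends. -/
lemma EndData.exists_map (h : S ≃ₜ S) {e : X} (he : e ∉ range ι) :
    ∃ e' ∉ range ι, Tendsto h (comap ι (𝓝 e)) (comap ι (𝓝 e')) := by
  have hne := D.dense e he
  obtain ⟨e', he'⟩ := exists_clusterPt_of_compactSpace (map (ι ∘ h) (comap ι (𝓝 e)))
  have : LocallyCompactSpace S := D.emb.locallyCompactSpace
  have hmeet : ∀ U ∈ 𝓝 e', ∀ A ∈ comap ι (𝓝 e), ∃ x ∈ A, ι (h x) ∈ U := by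
    intro U hU A hA
    obtain ⟨y, hy1, x, hx, rfl⟩ := (clusterPt_iff_nonempty.mp he') hU (image_mem_map hA)
    exact ⟨x, hx, hy1⟩
  have he'r : e' ∉ range ι := by
    rintro ⟨s, rfl⟩
    obtain ⟨K, hK, hKs⟩ := exists_compact_mem_nhds s
    have h1 : ι '' K ∈ 𝓝 (ι s) := D.emb.image_mem_nhds.mpr hKs
    have h2 : IsCompact (h ⁻¹' K) := by
      rw [← h.image_symm]
      exact hK.image h.symm.continuous
    obtain ⟨x, hx1, y, hy, hyx⟩ := hmeet _ h1 _ (D.leaves he h2)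
    rw [D.emb.injective hyx] at hy
    exact hx1 hy
  refine ⟨e', he'r, ?_⟩
  rw [tendsto_comap_iff]
  intro U hU
  obtain ⟨V, hVo, heV, hVU, hVf⟩ := D.sep e' he'r U hU
  have hKc := D.compact_frontier hVf
  have h2 : IsCompact (h ⁻¹' (ι ⁻¹' frontier V)) := by
    rw [← h.image_symm]
    exact hKc.image h.symm.continuous
  obtain ⟨N₀, hN₀, hN₀'⟩ := mem_comap.mp (D.leaves he h2)
  obtain ⟨N, hN, hNN₀, hNc⟩ := D.lc e he N₀ hN₀
  have hpre : IsPreconnected ((ι ∘ h) '' (ι ⁻¹' N)) :=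
    hNc.image _ (D.emb.continuous.comp h.continuous).continuousOn
  have hcover : (ι ∘ h) '' (ι ⁻¹' N) ⊆ V ∪ (closure V)ᶜ := by
    rintro _ ⟨x, hx, rfl⟩
    by_contra hz
    rw [mem_union, not_or, mem_compl_iff, not_not] at hz
    have hfr : ι (h x) ∈ frontier V := by
      rw [hVo.frontier_eq]
      exact ⟨hz.2, hz.1⟩
    exact hN₀' (hNN₀ hx) hfr
  obtain ⟨x, hx1, hx2⟩ := hmeet V (hVo.mem_nhds heV) (ι ⁻¹' N) (preimage_mem_comap hN)
  have hsub := hpre.subset_left_of_subset_union hVo isClosed_closure.isOpen_compl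
    (disjoint_compl_right.mono_left subset_closure) hcover ⟨_, ⟨x, hx1, rfl⟩, hx2⟩
  rw [mem_map]
  filter_upwards [preimage_mem_comap hN] with y hy
  exact hVU (hsub ⟨y, hy, rfl⟩)

lemma EndData.inv_map (h : S ≃ₜ S) {e e' : X} (he : e ∉ range ι) (he' : e' ∉ range ι)
    (h1 : Tendsto h (comap ι (𝓝 e)) (comap ι (𝓝 e'))) :
    Tendsto h.symm (comap ι (𝓝 e')) (comap ι (𝓝 e)) := by
  obtain ⟨e₁, he₁, h2⟩ := D.exists_map h.symm he'
  have h3 := h2.comp h1
  have h4 : Tendsto (id : S → S) (comap ι (𝓝 e)) (comap ι (𝓝 e₁)) := by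
    refine h3.congr fun x => ?_
    simp
  have := D.unique he h4 tendsto_id
  rwa [this] at h2

/-- Isolated ends are mapped to isolated ends. -/
lemma EndData.isolated_map (h : S ≃ₜ S) {e e' : X} (he : e ∉ range ι) (he' : e' ∉ range ι)
    (h1 : Tendsto h (comap ι (𝓝 e)) (comap ι (𝓝 e')))
    (hiso : ∃ N ∈ 𝓝 e, N ∩ (range ι)ᶜ ⊆ {e}) : ∃ N ∈ 𝓝 e', N ∩ (range ι)ᶜ ⊆ {e'} := by
  obtain ⟨N₀, hN₀, hN₀e⟩ := hiso
  obtain ⟨N, hN, hNcl, hNN₀⟩ := exists_mem_nhds_isClosed_subset hN₀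
  have h2 := D.inv_map h he he' h1
  obtain ⟨N₁, hN₁, hN₁'⟩ := mem_comap.mp (h2 (preimage_mem_comap hN))
  obtain ⟨N', hN'N₁, hN'o, heN'⟩ := mem_nhds_iff.mp hN₁
  refine ⟨N', hN'o.mem_nhds heN', ?_⟩
  rintro e'' ⟨he''N, he''⟩
  obtain ⟨e₃, he₃, h3⟩ := D.exists_map h.symm he''
  have hne := D.dense e'' he''
  have h4 : e₃ ∈ N := by
    rw [tendsto_comap_iff] at h3
    refine hNcl.mem_of_tendsto h3 ?_
    filter_upwards [preimage_mem_comap (hN'o.mem_nhds he''N)] with x hx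
    exact hN₁' (hN'N₁ hx)
  have h5 : e₃ = e := hN₀e ⟨hNN₀ h4, he₃⟩
  rw [h5] at h3
  have h6 := h1.comp h3
  have h7 : Tendsto (id : S → S) (comap ι (𝓝 e'')) (comap ι (𝓝 e')) := by
    refine h6.congr fun x => ?_
    simp
  exact (D.unique he'' tendsto_id h7)

/-- Homeomorphisms close to the identity move neighbourhoods of an end only a little. -/
lemma EndData.near_one [LocallyConnectedSpace S] {e : X} (he : e ∉ range ι) {U : Set X}
    (hU : U ∈ 𝓝 e) :
    ∃ N ∈ 𝓝 e, IsPreconnected (ι ⁻¹' N) ∧ N ⊆ U ∧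
      ∀ᶠ g : S ≃ₜ S in 𝓝 1, ∀ x, ι x ∈ N → ι (g x) ∈ U := by
  have : LocallyCompactSpace S := D.emb.locallyCompactSpace
  have : T2Space S := D.emb.isEmbedding.t2Space
  obtain ⟨V, hVo, heV, hVU, hVf⟩ := D.sep e he U hU
  have hKc := D.compact_frontier hVf
  obtain ⟨N₀, hN₀, hN₀cl, hN₀V⟩ := exists_mem_nhds_isClosed_subset (hVo.mem_nhds heV)
  obtain ⟨N, hN, hNN₀, hNc⟩ := D.lc e he N₀ hN₀
  refine ⟨N, hN, hNc, (hNN₀.trans hN₀V).trans hVU, ?_⟩
  have hne := D.dense e he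
  obtain ⟨z, hz⟩ : (ι ⁻¹' N).Nonempty := nonempty_of_mem (preimage_mem_comap hN)
  have hO : IsOpen (ι ⁻¹' N₀ᶜ) := hN₀cl.isOpen_compl.preimage D.emb.continuous
  have hKO : ι ⁻¹' frontier V ⊆ ι ⁻¹' N₀ᶜ := by
    intro x hx hx2
    rw [mem_preimage, hVo.frontier_eq] at hx
    exact hx.2 (hN₀V hx2)
  have h1 := eventually_preimage_subset hKc hO hKO
  have h2 : ∀ᶠ g : S ≃ₜ S in 𝓝 1, ι (g z) ∈ V := by
    have hind : Continuous (fun g : S ≃ₜ S => (⟨g, g.continuous⟩ : C(S, S))) :=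
      continuous_induced_dom
    have hopen := (ContinuousMap.isOpen_setOfPred_mapsTo (isCompact_singleton (x := z))
      (hVo.preimage D.emb.continuous)).preimage hind
    have := hopen.mem_nhds (x := (1 : S ≃ₜ S)) (by
      intro y hy
      rw [mem_singleton_iff] at hy
      rw [hy]
      exact hN₀V (hNN₀ hz))
    filter_upwards [this] with g hg
    exact hg (mem_singleton z)
  filter_upwards [h1, h2] with g hg1 hg2 x hx
  have hpre : IsPreconnected ((ι ∘ g) '' (ι ⁻¹' N)) :=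
    hNc.image _ (D.emb.continuous.comp g.continuous).continuousOn
  have hcover : (ι ∘ g) '' (ι ⁻¹' N) ⊆ V ∪ (closure V)ᶜ := by
    rintro _ ⟨y, hy, rfl⟩
    by_contra hz
    rw [mem_union, not_or, mem_compl_iff, not_not] at hz
    have hfr : ι (g y) ∈ frontier V := by
      rw [hVo.frontier_eq]
      exact ⟨hz.2, hz.1⟩
    exact hg1 y hfr (hNN₀ hy)
  have hsub := hpre.subset_left_of_subset_union hVo isClosed_closure.isOpen_compl
    (disjoint_compl_right.mono_left subset_closure) hcover ⟨_, ⟨z, hz, rfl⟩, hg2⟩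
  exact hVU (hsub ⟨x, hx, rfl⟩)

end Ends

end Pool.Agent.Helper2.Planar
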