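import Mathlib
import Pool.Agent.Helper2.Planar.TotDisc
import Pool.Agent.Helper2.Planar.Ends

/-!
# The ends of the complement of a compact totally disconnected subset of the plane
-/

set_option autoImplicit false

open Topology unitInterval Set Filter Metric

namespace Pool.Agent.Helper2.Planar

open Pool.Agent.Helper2.Genus

variable {E : Set ℂ}

/-- Small open sets whose frontier avoids `E`. -/
lemma exists_sep (hE : IsCompact E) (htd : IsTotallyDisconnected E) {e : ℂ} (he : e ∈ E)
    {U : Set ℂ} (hU : U ∈ 𝓝 e) :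
    ∃ V, IsOpen V ∧ e ∈ V ∧ closure V ⊆ U ∧ IsCompact (closure V) ∧ frontier V ⊆ Eᶜ := by
  have : CompactSpace E := isCompact_iff_compactSpace.mp hE
  have : TotallyDisconnectedSpace E := totallyDisconnectedSpace_subtype_iff.mpr htd
  obtain ⟨U', hU'U, hU'o, heU'⟩ := _root_.mem_nhds_iff.mp hU
  obtain ⟨V₀, hV₀c, heV₀, hV₀U⟩ := compact_exists_isClopen_in_isOpen
    (hU'o.preimage (continuous_subtype_val (p := fun z => z ∈ E))) (x := ⟨e, he⟩) heU'
  have hK₁ : IsCompact (Subtype.val '' V₀ : Set ℂ) :=
    hV₀c.isClosed.isCompact.image continuous_subtype_val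
  have hK₂ : IsCompact (Subtype.val '' V₀ᶜ : Set ℂ) :=
    hV₀c.compl.isClosed.isCompact.image continuous_subtype_val
  have hsub : (Subtype.val '' V₀ : Set ℂ) ⊆ U' ∩ (Subtype.val '' V₀ᶜ)ᶜ := by
    rintro _ ⟨x, hx, rfl⟩
    refine ⟨hV₀U hx, ?_⟩
    rintro ⟨y, hy, hxy⟩
    rw [Subtype.ext hxy] at hy
    exact hy hx
  obtain ⟨V, hVo, hKV, hVcl, hVc⟩ := exists_open_between_and_isCompact_closure hK₁
    (hU'o.inter hK₂.isClosed.isOpen_compl) hsub
  refine ⟨V, hVo, hKV ⟨⟨e, he⟩, heV₀, rfl⟩, (hVcl.trans inter_subset_left).trans hU'U, hVc, ?_⟩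
  intro z hz hzE
  rw [hVo.frontier_eq] at hz
  by_cases h : (⟨z, hzE⟩ : E) ∈ V₀
  · exact hz.2 (hKV ⟨_, h, rfl⟩)
  · exact (hVcl hz.1).2 ⟨⟨z, hzE⟩, h, rfl⟩

/-- Small connected open sets with connected complement of `E`. -/
lemma exists_lc (hE : IsCompact E) (htd : IsTotallyDisconnected E) {e : ℂ} (he : e ∈ E)
    {U : Set ℂ} (hU : U ∈ 𝓝 e) :
    ∃ N, IsOpen N ∧ e ∈ N ∧ N ⊆ U ∧ IsPreconnected N ∧ IsPreconnected (N \ E) := by
  obtain ⟨V, hVo, heV, hVU, hVc, hVf⟩ := exists_sep hE htd he hU
  have hNo : IsOpen (connectedComponentIn V e) := hVo.connectedComponentIn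
  have heN : e ∈ connectedComponentIn V e := mem_connectedComponentIn heV
  have hNV : connectedComponentIn V e ⊆ V := connectedComponentIn_subset V e
  have hcomp : IsCompact (E ∩ V) := by
    have : E ∩ V = E ∩ closure V := by
      apply Subset.antisymm (inter_subset_inter_right _ subset_closure)
      rintro z ⟨hz1, hz2⟩
      refine ⟨hz1, ?_⟩
      by_contra hzV
      have : z ∈ frontier V := by
        rw [hVo.frontier_eq]
        exact ⟨hz2, hzV⟩
      exact hVf this hz1
    rw [this]
    exact hE.inter hVc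
  have hcomp2 : IsCompact (E ∩ connectedComponentIn V e) := by
    have hopen : IsOpen (V \ connectedComponentIn V e) := by
      have : V \ connectedComponentIn V e =
          ⋃ x ∈ V \ connectedComponentIn V e, connectedComponentIn V x := by
        ext z
        simp only [mem_iUnion]
        constructor
        · intro hz
          exact ⟨z, hz, mem_connectedComponentIn hz.1⟩
        · rintro ⟨x, hx, hz⟩
          refine ⟨connectedComponentIn_subset V x hz, fun hz2 => hx.2 ?_⟩
          rw [connectedComponentIn_eq hz2, ← connectedComponentIn_eq hz]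
          exact mem_connectedComponentIn hx.1
      rw [this]
      exact isOpen_biUnion fun x _ => hVo.connectedComponentIn
    have : E ∩ connectedComponentIn V e = (E ∩ V) \ (V \ connectedComponentIn V e) := by
      ext z
      constructor
      · rintro ⟨h1, h2⟩
        exact ⟨⟨h1, hNV h2⟩, fun h => h.2 h2⟩
      · rintro ⟨⟨h1, h2⟩, h3⟩
        refine ⟨h1, ?_⟩
        by_contra h4
        exact h3 ⟨h2, h4⟩
    rw [this]
    exact hcomp.diff hopen
  refine ⟨connectedComponentIn V e, hNo, heN, (hNV.trans subset_closure).trans hVU,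
    isPreconnected_connectedComponentIn, ?_⟩
  have := isPreconnected_diff hNo isPreconnected_connectedComponentIn hcomp2
    (fun t ht => htd t (ht.trans inter_subset_left)) inter_subset_right
  rwa [sdiff_inter_self_eq_sdiff] at this

/-- Totally disconnected sets have empty interior. -/
lemma nonempty_diff (htd : IsTotallyDisconnected E) {N : Set ℂ} (hN : IsOpen N)
    (hne : N.Nonempty) : (N \ E).Nonempty := by
  by_contra h
  rw [not_nonempty_iff_eq_empty, sdiff_eq_empty] at h
  obtain ⟨z, hz⟩ := hne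
  obtain ⟨ε, hε, hb⟩ := Metric.isOpen_iff.mp hN z hz
  have h1 : (ball z ε).Subsingleton := htd _ (hb.trans h) isPreconnected_ball
  have h2 : z + (ε / 2 : ℝ) ∈ ball z ε := by
    rw [mem_ball, dist_eq_norm, add_sub_cancel_left, Complex.norm_real, Real.norm_eq_abs,
      abs_of_pos (half_pos hε)]
    linarith
  have h3 := h1 h2 (mem_ball_self hε)
  have h4 : ((ε / 2 : ℝ) : ℂ) = 0 := by simpa using h3
  have h5 : ε / 2 = 0 := by exact_mod_cast h4
  linarith

/-- The embedding of the complement of `E` in the sphere. -/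
def toSphere (E : Set ℂ) : (Eᶜ : Set ℂ) → OnePoint ℂ := fun z => ((z : ℂ) : OnePoint ℂ)

lemma toSphere_emb (hE : IsCompact E) : IsOpenEmbedding (toSphere E) :=
  OnePoint.isOpenEmbedding_coe.comp hE.isClosed.isOpen_compl.isOpenEmbedding_subtypeVal

lemma notMem_range_iff {e : OnePoint ℂ} :
    e ∉ range (toSphere E) ↔ e = OnePoint.infty ∨ ∃ z ∈ E, (z : OnePoint ℂ) = e := by
  induction e using OnePoint.rec with
  | infty =>
    constructor
    · intro _; exact Or.inl rfl
    · rintro - ⟨z, hz⟩
      exact OnePoint.coe_ne_infty _ hz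
  | coe z =>
    constructor
    · intro h
      right
      refine ⟨z, ?_, rfl⟩
      by_contra hz
      exact h ⟨⟨z, hz⟩, rfl⟩
    · rintro (h | ⟨w, hw, hwz⟩)
      · exact absurd h (OnePoint.coe_ne_infty _)
      · rintro ⟨x, hx⟩
        have h1 : (x : ℂ) = z := OnePoint.coe_injective hx
        have h2 : w = z := OnePoint.coe_injective hwz
        rw [h2, ← h1] at hw
        exact x.2 hw

lemma isPreconnected_preimage_val {A : Set ℂ} (hA : IsPreconnected A) (hAE : A ⊆ Eᶜ) :
    IsPreconnected (Subtype.val ⁻¹' A : Set (Eᶜ : Set ℂ)) := by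
  rw [← IsInducing.subtypeVal.isPreconnected_image, Subtype.image_preimage_coe,
    inter_eq_self_of_subset_right hAE]
  exact hA

theorem endData (hE : IsCompact E) (htd : IsTotallyDisconnected E) :
    EndData (toSphere E) where
  emb := toSphere_emb hE
  lc := by
    intro e he U hU
    rcases notMem_range_iff.mp he with rfl | ⟨z, hz, rfl⟩
    · -- the end at infinity
      have h1 : Tendsto ((↑) : ℂ → OnePoint ℂ) (coclosedCompact ℂ) (𝓝 OnePoint.infty) :=
        OnePoint.tendsto_coe_infty
      have h2 := h1 hU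
      rw [mem_map, coclosedCompact_eq_cocompact] at h2
      obtain ⟨K, hK, hKU⟩ := mem_cocompact.mp h2
      obtain ⟨r, hr0, hr⟩ := (hK.union hE).isBounded.subset_closedBall_lt 0 0
      refine ⟨(((↑) : ℂ → OnePoint ℂ) '' closedBall 0 r)ᶜ, ?_, ?_, ?_⟩
      · refine IsOpen.mem_nhds ?_ OnePoint.infty_notMem_image_coe
        exact OnePoint.isOpen_compl_image_coe.mpr ⟨isClosed_closedBall, isCompact_closedBall 0 r⟩
      · intro x hx
        induction x using OnePoint.rec with
        | infty => exact mem_of_mem_nhds hU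
        | coe w =>
          have hw : w ∈ Kᶜ := fun h => hx ⟨w, hr (Or.inl h), rfl⟩
          exact hKU hw
      · have hpre : toSphere E ⁻¹' (((↑) : ℂ → OnePoint ℂ) '' closedBall 0 r)ᶜ =
            (Subtype.val ⁻¹' (closedBall (0 : ℂ) r)ᶜ : Set (Eᶜ : Set ℂ)) := by
          ext x
          simp only [mem_preimage, mem_compl_iff, toSphere]
          rw [not_iff_not]
          constructor
          · rintro ⟨w, hw, hwx⟩
            rwa [← OnePoint.coe_injective hwx]
          · intro hx
            exact ⟨_, hx, rfl⟩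
        rw [hpre]
        refine isPreconnected_preimage_val (isPreconnected_compl_closedBall 0 hr0.le) ?_
        exact compl_subset_compl.mpr (subset_union_right.trans hr)
    · rw [OnePoint.nhds_coe_eq] at hU
      obtain ⟨N, hNo, hzN, hNU, -, hNc⟩ := exists_lc hE htd hz (mem_map.mp hU)
      refine ⟨((↑) : ℂ → OnePoint ℂ) '' N, ?_, ?_, ?_⟩
      · rw [OnePoint.nhds_coe_eq]
        exact image_mem_map (hNo.mem_nhds hzN)
      · rintro _ ⟨w, hw, rfl⟩
        exact hNU hw
      · have hpre : toSphere E ⁻¹' (((↑) : ℂ → OnePoint ℂ) '' N) =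
            (Subtype.val ⁻¹' (N \ E) : Set (Eᶜ : Set ℂ)) := by
          ext x
          simp only [mem_preimage, toSphere, Set.mem_sdiff]
          constructor
          · rintro ⟨w, hw, hwx⟩
            rw [← OnePoint.coe_injective hwx]
            refine ⟨hw, ?_⟩
            rw [OnePoint.coe_injective hwx]
            exact x.2
          · rintro ⟨hx, -⟩
            exact ⟨_, hx, rfl⟩
        rw [hpre]
        exact isPreconnected_preimage_val hNc (fun w hw => hw.2)
  sep := by
    intro e he U hU
    rcases notMem_range_iff.mp he with rfl | ⟨z, hz, rfl⟩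
    · have h1 : Tendsto ((↑) : ℂ → OnePoint ℂ) (coclosedCompact ℂ) (𝓝 OnePoint.infty) :=
        OnePoint.tendsto_coe_infty
      have h2 := h1 hU
      rw [mem_map, coclosedCompact_eq_cocompact] at h2
      obtain ⟨K, hK, hKU⟩ := mem_cocompact.mp h2
      obtain ⟨r, hr0, hr⟩ := (hK.union hE).isBounded.subset_ball_lt 0 0
      refine ⟨(((↑) : ℂ → OnePoint ℂ) '' closedBall 0 r)ᶜ, ?_, OnePoint.infty_notMem_image_coe,
        ?_, ?_⟩
      · exact OnePoint.isOpen_compl_image_coe.mpr ⟨isClosed_closedBall, isCompact_closedBall 0 r⟩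
      · intro x hx
        induction x using OnePoint.rec with
        | infty => exact mem_of_mem_nhds hU
        | coe w =>
          have hw : w ∈ Kᶜ := fun h => hx ⟨w, ball_subset_closedBall (hr (Or.inl h)), rfl⟩
          exact hKU hw
      · intro x hx
        rw [frontier_compl] at hx
        have hcl : IsClosed (((↑) : ℂ → OnePoint ℂ) '' closedBall 0 r) :=
          ((isCompact_closedBall (0 : ℂ) r).image OnePoint.continuous_coe).isClosed
        have hx1 : x ∈ ((↑) : ℂ → OnePoint ℂ) '' closedBall 0 r := hcl.frontier_subset hx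
        obtain ⟨w, hw, rfl⟩ := hx1
        have hwE : w ∉ E := by
          intro hwE
          have hwb : w ∈ ball (0 : ℂ) r := hr (Or.inr hwE)
          have hint : ((w : ℂ) : OnePoint ℂ) ∈ interior (((↑) : ℂ → OnePoint ℂ) '' closedBall 0 r) := by
            rw [mem_interior]
            exact ⟨((↑) : ℂ → OnePoint ℂ) '' ball 0 r, image_mono ball_subset_closedBall,
              OnePoint.isOpen_image_coe.mpr isOpen_ball, ⟨w, hwb, rfl⟩⟩
          exact hx.2 hint
        exact ⟨⟨w, hwE⟩, rfl⟩
    · rw [OnePoint.nhds_coe_eq] at hU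
      obtain ⟨V, hVo, hzV, hVU, hVc, hVf⟩ := exists_sep hE htd hz (mem_map.mp hU)
      refine ⟨((↑) : ℂ → OnePoint ℂ) '' V, OnePoint.isOpen_image_coe.mpr hVo, ⟨z, hzV, rfl⟩, ?_, ?_⟩
      · rintro _ ⟨w, hw, rfl⟩
        exact hVU (subset_closure hw)
      · intro x hx
        have hcl : IsClosed (((↑) : ℂ → OnePoint ℂ) '' closure V) :=
          (hVc.image OnePoint.continuous_coe).isClosed
        have hx1 : x ∈ ((↑) : ℂ → OnePoint ℂ) '' closure V :=
          closure_minimal (image_mono subset_closure) hcl (frontier_subset_closure hx)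
        obtain ⟨w, hw, rfl⟩ := hx1
        have hwV : w ∉ V := by
          intro hwV
          rw [(OnePoint.isOpen_image_coe.mpr hVo).frontier_eq] at hx
          exact hx.2 ⟨w, hwV, rfl⟩
        have hwf : w ∈ frontier V := by
          rw [hVo.frontier_eq]
          exact ⟨hw, hwV⟩
        exact ⟨⟨w, hVf hwf⟩, rfl⟩
  dense := by
    intro e he
    rcases notMem_range_iff.mp he with rfl | ⟨z, hz, rfl⟩
    · rw [comap_neBot_iff]
      intro U hU
      have h1 : Tendsto ((↑) : ℂ → OnePoint ℂ) (coclosedCompact ℂ) (𝓝 OnePoint.infty) :=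
        OnePoint.tendsto_coe_infty
      have h2 := h1 hU
      rw [mem_map, coclosedCompact_eq_cocompact] at h2
      obtain ⟨K, hK, hKU⟩ := mem_cocompact.mp h2
      obtain ⟨w, hw⟩ : (Kᶜ ∩ Eᶜ).Nonempty := by
        rw [← compl_union, nonempty_compl]
        intro h
        exact noncompact_univ ℂ (h ▸ hK.union hE)
      exact ⟨⟨w, hw.2⟩, hKU hw.1⟩
    · rw [comap_neBot_iff]
      intro U hU
      rw [OnePoint.nhds_coe_eq] at hU
      obtain ⟨N, hNU, hNo, hzN⟩ := _root_.mem_nhds_iff.mp (mem_map.mp hU)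
      obtain ⟨w, hw⟩ := nonempty_diff htd hNo ⟨z, hzN⟩
      exact ⟨⟨w, hw.2⟩, hNU hw.1⟩

end Pool.Agent.Helper2.Planar
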