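import Mathlib
import Pool.Agent.Helper2.Planar.PlaneEnds
import Pool.Agent.Helper2.Planar.Ang

/-!
# Pushing a point around in the complement of a totally disconnected compact set
-/

set_option autoImplicit false

open Topology unitInterval Set Filter Metric

namespace Pool.Agent.Helper2.Planar

open Pool.Agent.Helper2.Genus

lemma ang_mul {a b : ℂ} (ha : a ≠ 0) (hb : b ≠ 0) : ang (a * b) = ang a + ang b := by
  apply AddCircle.injective_toCircle one_ne_zero
  apply Circle.coe_injective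
  rw [toCircle_ang (mul_ne_zero ha hb), AddCircle.toCircle_add, Circle.coe_mul, toCircle_ang ha,
    toCircle_ang hb, norm_mul]
  push_cast
  rw [mul_div_mul_comm]

/-- `h` pushes `x` to `y` and fixes the points of `K`, and `Λ` is the displacement of `h`. -/
def Push (K : Set ℂ) (x y : ℂ) (h : ℂ ≃ₜ ℂ) (Λ : ℂ → ℝ) : Prop :=
  h x = y ∧ (∀ e ∈ K, h e = e) ∧ ContinuousOn Λ {x}ᶜ ∧
    ∀ z ≠ x, ((Λ z : ℝ) : UnitAddCircle) = ang (h z - y) - ang (z - x)

variable {K : Set ℂ}

lemma Push.refl (x : ℂ) : Push K x x (Homeomorph.refl ℂ) 0 := by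
  refine ⟨rfl, fun e _ => rfl, continuousOn_const, fun z _ => ?_⟩
  simp

lemma Push.trans {x y w : ℂ} {h g : ℂ ≃ₜ ℂ} {Λ M : ℂ → ℝ} (hh : Push K x y h Λ)
    (hg : Push K y w g M) : Push K x w (h.trans g) (fun z => Λ z + M (h z)) := by
  obtain ⟨h1, h2, h3, h4⟩ := hh
  obtain ⟨g1, g2, g3, g4⟩ := hg
  have hne : ∀ z ≠ x, h z ≠ y := by
    intro z hz hzy
    rw [← h1] at hzy
    exact hz (h.injective hzy)
  refine ⟨?_, ?_, ?_, ?_⟩
  · rw [Homeomorph.trans_apply, h1, g1]
  · intro e he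
    rw [Homeomorph.trans_apply, h2 e he, g2 e he]
  · exact h3.add (g3.comp h.continuous.continuousOn (fun z hz => hne z hz))
  · intro z hz
    rw [AddCircle.coe_add, h4 z hz, g4 _ (hne z hz), Homeomorph.trans_apply]
    abel

lemma Push.symm {x y : ℂ} {h : ℂ ≃ₜ ℂ} {Λ : ℂ → ℝ} (hh : Push K x y h Λ) :
    Push K y x h.symm (fun z => - Λ (h.symm z)) := by
  obtain ⟨h1, h2, h3, h4⟩ := hh
  have hne : ∀ z ≠ y, h.symm z ≠ x := by
    intro z hz hzx
    rw [Homeomorph.symm_apply_eq, h1] at hzx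
    exact hz hzx
  refine ⟨?_, ?_, ?_, ?_⟩
  · rw [Homeomorph.symm_apply_eq, h1]
  · intro e he
    rw [Homeomorph.symm_apply_eq, h2 e he]
  · exact (h3.comp h.symm.continuous.continuousOn (fun z hz => hne z hz)).neg
  · intro z hz
    rw [AddCircle.coe_neg, h4 _ (hne z hz), Homeomorph.apply_symm_apply]
    abel

/-- The cut-off function. -/
noncomputable def chi (y : ℂ) (R : ℝ) (z : ℂ) : ℝ := min 1 (max 0 (2 - 2 * (dist z y / R)))

lemma chi_nonneg (y : ℂ) (R : ℝ) (z : ℂ) : 0 ≤ chi y R z :=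
  le_min zero_le_one (le_max_left _ _)

lemma chi_le_one (y : ℂ) (R : ℝ) (z : ℂ) : chi y R z ≤ 1 := min_le_left _ _

lemma chi_lip (y : ℂ) {R : ℝ} (hR : 0 < R) (z w : ℂ) :
    |chi y R z - chi y R w| ≤ 2 / R * dist z w := by
  unfold chi
  refine (abs_min_sub_min_le_max _ _ _ _).trans ?_
  rw [sub_self, abs_zero]
  refine max_le (by positivity) ?_
  refine (abs_max_sub_max_le_max _ _ _ _).trans ?_
  rw [sub_self, abs_zero]
  refine max_le (by positivity) ?_
  have h1 : 2 - 2 * (dist z y / R) - (2 - 2 * (dist w y / R)) = 2 / R * (dist w y - dist z y) := by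
    ring
  rw [h1, abs_mul, abs_of_pos (by positivity : (0 : ℝ) < 2 / R)]
  refine mul_le_mul_of_nonneg_left ?_ (by positivity)
  rw [dist_comm z w]
  exact abs_dist_sub_le w z y

lemma chi_eq_one {y z : ℂ} {R : ℝ} (hR : 0 < R) (h : dist z y ≤ R / 2) : chi y R z = 1 := by
  unfold chi
  rw [min_eq_left]
  refine le_max_of_le_right ?_
  have : dist z y / R ≤ 1 / 2 := by
    rw [div_le_iff₀ hR]
    linarith
  linarith

lemma chi_eq_zero {y z : ℂ} {R : ℝ} (hR : 0 < R) (h : R ≤ dist z y) : chi y R z = 0 := by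
  unfold chi
  rw [max_eq_left, min_eq_right zero_le_one]
  have : 1 ≤ dist z y / R := by
    rw [le_div_iff₀ hR]
    linarith
  linarith

lemma chi_continuous (y : ℂ) {R : ℝ} : Continuous (chi y R) := by
  unfold chi
  fun_prop

/-- The local push. -/
theorem exists_push {y : ℂ} {R : ℝ} (hR : 0 < R) (hb : ∀ e ∈ K, R ≤ dist e y) {y' : ℂ}
    (hy' : dist y' y < R / 4) :
    ∃ h Λ, Push K y y' h Λ ∧
      ∀ e ∈ K, Λ e = (1 - (y' - y) / (e - y)).arg * ((2 * Real.pi)⁻¹ * 1) := by
  set v : ℂ := y' - y with hv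
  have hvn : ‖v‖ < R / 4 := by rw [hv, ← dist_eq_norm]; exact hy'
  let P : ℂ → ℂ := fun z => z + (chi y R z : ℂ) * v
  have happ : ApproximatesLinearOn P
      ((ContinuousLinearEquiv.refl ℝ ℂ : ℂ ≃L[ℝ] ℂ) : ℂ →L[ℝ] ℂ) univ (1 / 2) := by
    intro z _ w _
    have h1 : P z - P w - ((ContinuousLinearEquiv.refl ℝ ℂ : ℂ ≃L[ℝ] ℂ) : ℂ →L[ℝ] ℂ) (z - w) =
        ((chi y R z - chi y R w : ℝ) : ℂ) * v := by
      simp only [P, ContinuousLinearEquiv.coe_refl, ContinuousLinearMap.id_apply]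
      push_cast
      ring
    rw [h1, norm_mul, Complex.norm_real, Real.norm_eq_abs]
    have h2 := chi_lip y hR z w
    calc |chi y R z - chi y R w| * ‖v‖ ≤ (2 / R * dist z w) * (R / 4) := by
          apply mul_le_mul h2 hvn.le (norm_nonneg _) (by positivity)
      _ = 1 / 2 * dist z w := by field_simp; ring
      _ = ((1 / 2 : NNReal) : ℝ) * ‖z - w‖ := by rw [dist_eq_norm]; simp
  let h : ℂ ≃ₜ ℂ := happ.toHomeomorph P (Or.inr (by
    have h1 : ‖((ContinuousLinearEquiv.refl ℝ ℂ : ℂ ≃L[ℝ] ℂ).symm : ℂ →L[ℝ] ℂ)‖₊ = 1 := by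
      rw [ContinuousLinearEquiv.refl_symm, ContinuousLinearEquiv.coe_refl]
      exact ContinuousLinearMap.nnnorm_id
    rw [h1, inv_one]
    norm_num))
  have hP : ∀ z, h z = z + (chi y R z : ℂ) * v := fun z => rfl
  let w : ℂ → ℂ := fun z => 1 + ((chi y R z : ℂ) - 1) * v / (z - y)
  have hw : ∀ z ≠ y, w z ∈ Complex.slitPlane := by
    intro z hz
    have hzy : 0 < dist z y := dist_pos.mpr hz
    have h2 : ‖((chi y R z : ℂ) - 1) * v / (z - y)‖ < 1 := by
      rw [norm_div, norm_mul, ← dist_eq_norm z y, div_lt_one hzy]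
      by_cases hc : dist z y ≤ R / 2
      · rw [chi_eq_one hR hc]
        simpa using hz
      · rw [not_le] at hc
        have h3 : ‖((chi y R z : ℂ) - 1)‖ ≤ 1 := by
          have : ((chi y R z : ℂ) - 1) = ((chi y R z - 1 : ℝ) : ℂ) := by push_cast; ring
          rw [this, Complex.norm_real, Real.norm_eq_abs, abs_le]
          constructor <;> linarith [chi_nonneg y R z, chi_le_one y R z]
        calc ‖((chi y R z : ℂ) - 1)‖ * ‖v‖ ≤ 1 * ‖v‖ :=
              mul_le_mul_of_nonneg_right h3 (norm_nonneg _)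
          _ < dist z y := by linarith
    left
    have h3 := Complex.abs_re_le_norm (((chi y R z : ℂ) - 1) * v / (z - y))
    have h4 := (abs_le.mp h3).1
    change 0 < (1 + ((chi y R z : ℂ) - 1) * v / (z - y)).re
    rw [Complex.add_re, Complex.one_re]
    linarith
  refine ⟨h, fun z => (w z).arg * ((2 * Real.pi)⁻¹ * 1), ⟨?_, ?_, ?_, ?_⟩, ?_⟩
  · rw [hP, chi_eq_one hR (by rw [dist_self]; positivity), hv]
    push_cast
    ring
  · intro e he
    rw [hP, chi_eq_zero hR (hb e he)]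
    simp
  · intro z hz
    have hne : z - y ≠ 0 := sub_ne_zero.mpr hz
    have h1 : ContinuousAt w z := by
      have hc : ContinuousAt (fun z => (chi y R z : ℂ)) z :=
        (Complex.continuous_ofReal.comp (chi_continuous y)).continuousAt
      exact continuousAt_const.add (((hc.sub continuousAt_const).mul continuousAt_const).div
        (continuousAt_id.sub continuousAt_const) hne)
    have h2 : ContinuousAt (fun z => (w z).arg) z :=
      ContinuousAt.comp (f := w) (g := Complex.arg) (Complex.continuousAt_arg (hw z hz)) h1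
    exact (h2.mul continuousAt_const).continuousWithinAt
  · intro z hz
    have hne : z - y ≠ 0 := sub_ne_zero.mpr hz
    have h1 : h z - y' = w z * (z - y) := by
      rw [hP]
      change _ = (1 + ((chi y R z : ℂ) - 1) * v / (z - y)) * (z - y)
      rw [add_mul, div_mul_cancel₀ _ hne, hv]
      ring
    rw [h1, ang_mul (Complex.slitPlane_ne_zero (hw z hz)) hne, ang_eq (w z)]
    abel
  · intro e he
    have : w e = 1 - v / (e - y) := by
      change 1 + ((chi y R e : ℂ) - 1) * v / (e - y) = _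
      rw [chi_eq_zero hR (hb e he)]
      push_cast
      ring
    simp only [this]

/-- Every point outside of `K` can be reached. -/
theorem exists_push_all (hK : IsCompact K) (htd : IsTotallyDisconnected K) {x y : ℂ} (hx : x ∉ K)
    (hy : y ∉ K) : ∃ h Λ, Push K x y h Λ := by
  have hpre : IsPreconnected (Kᶜ : Set ℂ) := by
    have h1 := isPreconnected_diff isOpen_univ isPreconnected_univ hK htd (subset_univ K)
    rwa [← compl_eq_univ_sdiff] at h1
  refine hpre.induction₂' (fun x y => ∃ h Λ, Push K x y h Λ) ?_ ?_ hx hy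
  · intro z hz
    apply Filter.Eventually.filter_mono nhdsWithin_le_nhds
    obtain ⟨R, hR, hb⟩ := Metric.mem_nhds_iff.mp (hK.isClosed.isOpen_compl.mem_nhds hz)
    filter_upwards [ball_mem_nhds z (by positivity : 0 < R / 4)] with w hw
    obtain ⟨h, Λ, hp, -⟩ := exists_push (K := K) hR (y := z) (y' := w) (fun e he => by
      by_contra hlt
      exact hb (mem_ball.mpr (not_le.mp hlt)) he) (mem_ball.mp hw)
    exact ⟨⟨h, Λ, hp⟩, ⟨_, _, hp.symm⟩⟩
  · rintro x y z - - - ⟨h, Λ, h1⟩ ⟨g, M, h2⟩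
    exact ⟨_, _, h1.trans h2⟩

end Pool.Agent.Helper2.Planar
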