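import Mathlib
import Pool.Agent.Helper2.Planar.PlaneEnds

/-!
# Stabilisers of ends
-/

set_option autoImplicit false

open Topology unitInterval Set Filter Metric

namespace Pool.Agent.Helper2.Planar

open Pool.Agent.Helper2.Genus

lemma finiteIndex_of_map {G T : Type*} [Group G] [Finite T] (K₀ : Subgroup G) (τ : G → T)
    (hτ : ∀ g h, τ g = τ h → g⁻¹ * h ∈ K₀) : K₀.FiniteIndex := by
  have hinj : Function.Injective (fun q : G ⧸ K₀ => τ q.out) := by
    intro q q' h
    have h1 := hτ _ _ h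
    rw [← QuotientGroup.eq, QuotientGroup.out_eq', QuotientGroup.out_eq'] at h1
    exact h1
  have : Finite (G ⧸ K₀) := Finite.of_injective _ hinj
  exact Subgroup.finiteIndex_of_finite_quotient

section Ends

variable {S X : Type*} [TopologicalSpace S] [TopologicalSpace X] [CompactSpace X] [T2Space X]
  {ι : S → X}

/-- The homeomorphisms fixing the end `e`. -/
def endStab (D : EndData ι) {e : X} (he : e ∉ range ι) : Subgroup (S ≃ₜ S) where
  carrier := {h | Tendsto h (comap ι (𝓝 e)) (comap ι (𝓝 e))}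
  one_mem' := tendsto_id
  mul_mem' := fun hg hh => hg.comp hh
  inv_mem' := fun {h} hh => D.inv_map h he he hh

lemma mem_endStab (D : EndData ι) {e : X} (he : e ∉ range ι) {h : S ≃ₜ S} :
    h ∈ endStab D he ↔ Tendsto h (comap ι (𝓝 e)) (comap ι (𝓝 e)) := Iff.rfl

/-- If there are finitely many isolated ends then the stabiliser of an isolated end has finite
index. -/
lemma endStab_finiteIndex (D : EndData ι) {e : X} (he : e ∉ range ι)
    (hiso : ∃ N ∈ 𝓝 e, N ∩ (range ι)ᶜ ⊆ {e})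
    (hfin : {e' : X | e' ∉ range ι ∧ ∃ N ∈ 𝓝 e', N ∩ (range ι)ᶜ ⊆ {e'}}.Finite) :
    (endStab D he).FiniteIndex := by
  have : Finite {e' : X | e' ∉ range ι ∧ ∃ N ∈ 𝓝 e', N ∩ (range ι)ᶜ ⊆ {e'}} := hfin
  choose τ hτ1 hτ2 using fun h : S ≃ₜ S => D.exists_map h he
  refine finiteIndex_of_map (endStab D he) (T := {e' : X | e' ∉ range ι ∧ ∃ N ∈ 𝓝 e',
    N ∩ (range ι)ᶜ ⊆ {e'}}) (fun h => ⟨τ h, hτ1 h, D.isolated_map h he (hτ1 h) (hτ2 h) hiso⟩) ?_
  intro g h hgh
  have h1 : τ g = τ h := congrArg Subtype.val hgh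
  have h2 := D.inv_map g he (hτ1 g) (hτ2 g)
  rw [h1] at h2
  exact h2.comp (hτ2 h)

/-- Homeomorphisms close to the identity fix the isolated ends. -/
lemma endStab_near_one [LocallyConnectedSpace S] (D : EndData ι) {e : X} (he : e ∉ range ι)
    (hiso : ∃ N ∈ 𝓝 e, N ∩ (range ι)ᶜ ⊆ {e}) :
    ∀ᶠ g : S ≃ₜ S in 𝓝 1, g ∈ endStab D he := by
  obtain ⟨N₀, hN₀, hN₀e⟩ := hiso
  obtain ⟨U, hU, hUcl, hUN⟩ := exists_mem_nhds_isClosed_subset hN₀
  obtain ⟨N, hN, -, -, hev⟩ := D.near_one he hU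
  filter_upwards [hev] with g hg
  obtain ⟨e', he', ht⟩ := D.exists_map g he
  have hne := D.dense e he
  have h1 : e' ∈ U := by
    rw [tendsto_comap_iff] at ht
    refine hUcl.mem_of_tendsto ht ?_
    filter_upwards [preimage_mem_comap hN] with x hx
    exact hg x hx
  have h2 : e' = e := hN₀e ⟨hUN h1, he'⟩
  rw [h2] at ht
  exact ht

end Ends

end Pool.Agent.Helper2.Planar
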