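import Mathlib
import Pool.Agent.Helper2.Planar.EndStab
import Pool.Agent.Helper2.Planar.Ang

/-!
# The displacement of a homeomorphism around an isolated end
-/

set_option autoImplicit false

open Topology unitInterval Set Filter Metric

namespace Pool.Agent.Helper2.Planar

open Pool.Agent.Helper2.Genus

/-- The data of an isolated point `p` of a compact totally disconnected set `E`, the rest of which
is `K`, and a circle-valued function which is a modification of the angle around `p` and vanishes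
near `K`. -/
structure Frame (E K : Set ℂ) (p : ℂ) where
  hE : IsCompact E
  htd : IsTotallyDisconnected E
  hK : IsCompact K
  hEK : ∀ z, z ∈ E ↔ z = p ∨ z ∈ K
  hpK : p ∉ K
  κ : ℂ → ℝ
  O : Set ℂ
  hκ : ContinuousOn κ {p}ᶜ
  hO : IsOpen O
  hKO : K ⊆ O
  hpO : p ∉ O
  hzero : ∀ z ∈ O, ang (z - p) + ((κ z : ℝ) : UnitAddCircle) = 0

variable {E K : Set ℂ} {p : ℂ} (Φ : Frame E K p)

namespace Frame

/-- The modified angle. -/
noncomputable def a (z : ℂ) : UnitAddCircle := ang (z - p) + ((Φ.κ z : ℝ) : UnitAddCircle)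

lemma a_continuousOn : ContinuousOn Φ.a {p}ᶜ :=
  (ang_continuousOn p).add ((AddCircle.continuous_mk' (1 : ℝ)).comp_continuousOn Φ.hκ)

lemma a_zero {z : ℂ} (hz : z ∈ Φ.O) : Φ.a z = 0 := Φ.hzero z hz

include Φ in
lemma ne_of_notMem {z : ℂ} (hz : z ∈ Eᶜ) : z ≠ p := fun h => hz ((Φ.hEK z).mpr (Or.inl h))

include Φ in
lemma ne_of_mem {z : ℂ} (hz : z ∈ K) : z ≠ p := fun h => Φ.hpK (h ▸ hz)

include Φ in
lemma K_sub : K ⊆ E := fun z hz => (Φ.hEK z).mpr (Or.inr hz)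

include Φ in
lemma E_sub : Eᶜ ⊆ {p}ᶜ := fun _ hz => Φ.ne_of_notMem hz

include Φ in
lemma K_sub' : K ⊆ {p}ᶜ := fun _ hz => Φ.ne_of_mem hz

include Φ in
/-- The end data. -/
lemma D : EndData (toSphere E) := endData Φ.hE Φ.htd

end Frame

/-- The filter of neighbourhoods of an end. -/
lemma comap_toSphere (z : ℂ) :
    comap (toSphere E) (𝓝 (z : OnePoint ℂ)) = comap (Subtype.val : (Eᶜ : Set ℂ) → ℂ) (𝓝 z) := by
  have h : toSphere E = ((↑) : ℂ → OnePoint ℂ) ∘ (Subtype.val : (Eᶜ : Set ℂ) → ℂ) := rfl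
  rw [h, ← comap_comap, OnePoint.comap_coe_nhds]

lemma tendsto_end_iff {h : (Eᶜ : Set ℂ) ≃ₜ (Eᶜ : Set ℂ)} {z w : ℂ} :
    Tendsto h (comap (toSphere E) (𝓝 (z : OnePoint ℂ))) (comap (toSphere E) (𝓝 (w : OnePoint ℂ))) ↔
      Tendsto (fun x => (h x : ℂ)) (comap (Subtype.val : (Eᶜ : Set ℂ) → ℂ) (𝓝 z)) (𝓝 w) := by
  rw [comap_toSphere, comap_toSphere, tendsto_comap_iff]
  rfl

namespace Frame

lemma infty_notMem (_ : Frame E K p) : (OnePoint.infty : OnePoint ℂ) ∉ range (toSphere E) :=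
  notMem_range_iff.mpr (Or.inl rfl)

include Φ in
lemma p_notMem : ((p : ℂ) : OnePoint ℂ) ∉ range (toSphere E) :=
  notMem_range_iff.mpr (Or.inr ⟨p, (Φ.hEK p).mpr (Or.inl rfl), rfl⟩)

include Φ in
lemma K_notMem {e : ℂ} (he : e ∈ K) : ((e : ℂ) : OnePoint ℂ) ∉ range (toSphere E) :=
  notMem_range_iff.mpr (Or.inr ⟨e, Φ.K_sub he, rfl⟩)

/-- The homeomorphisms fixing the ends `p` and `∞`. -/
noncomputable def fix : Subgroup ((Eᶜ : Set ℂ) ≃ₜ (Eᶜ : Set ℂ)) :=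
  endStab Φ.D Φ.p_notMem ⊓ endStab Φ.D Φ.infty_notMem

include Φ in
lemma neBot {e : ℂ} (he : e ∈ K) : (comap (Subtype.val : (Eᶜ : Set ℂ) → ℂ) (𝓝 e)).NeBot := by
  rw [← comap_toSphere]
  exact Φ.D.dense _ (Φ.K_notMem he)

/-- The action on the ends in `K`. -/
lemma exists_image {h : (Eᶜ : Set ℂ) ≃ₜ (Eᶜ : Set ℂ)} (hh : h ∈ Φ.fix) {e : ℂ} (he : e ∈ K) :
    ∃ e' ∈ K, Tendsto (fun x => (h x : ℂ)) (comap (Subtype.val : (Eᶜ : Set ℂ) → ℂ) (𝓝 e))
      (𝓝 e') := by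
  obtain ⟨e₁, he₁, ht⟩ := Φ.D.exists_map h (Φ.K_notMem he)
  have h1 := Φ.D.inv_map h (Φ.K_notMem he) he₁ ht
  rcases notMem_range_iff.mp he₁ with rfl | ⟨z, hz, rfl⟩
  · exfalso
    have h2 : Tendsto h.symm _ _ := (Φ.fix.inv_mem hh).2
    exact OnePoint.coe_ne_infty _ (Φ.D.unique Φ.infty_notMem h1 h2)
  · rcases (Φ.hEK z).mp hz with rfl | hzK
    · exfalso
      have h2 : Tendsto h.symm _ _ := (Φ.fix.inv_mem hh).1
      exact Φ.ne_of_mem he (OnePoint.coe_injective (Φ.D.unique Φ.p_notMem h1 h2))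
    · exact ⟨z, hzK, tendsto_end_iff.mp ht⟩

/-- `φ` is the displacement of `h` around `p`. -/
def Disp (h : (Eᶜ : Set ℂ) ≃ₜ (Eᶜ : Set ℂ)) (k : ℤ) (φ : ℂ → ℝ) : Prop :=
  ContinuousOn φ {p}ᶜ ∧ ∀ x : (Eᶜ : Set ℂ), Φ.a (h x) = k • Φ.a x + ((φ x : ℝ) : UnitAddCircle)

theorem exists_disp {h : (Eᶜ : Set ℂ) ≃ₜ (Eᶜ : Set ℂ)} (hh : h ∈ Φ.fix) :
    ∃ k φ, Φ.Disp h k φ := by
  classical
  let D : ℂ → UnitAddCircle := fun z => if hz : z ∈ Eᶜ then Φ.a (h ⟨z, hz⟩) else 0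
  have hval : ∀ x : (Eᶜ : Set ℂ), D x = Φ.a (h x) := fun x => dif_pos x.2
  have hD : ContinuousOn D {p}ᶜ := by
    intro z hz
    by_cases hzE : z ∈ Eᶜ
    · have h1 : ContinuousOn D Eᶜ := by
        rw [continuousOn_iff_continuous_domRestrict]
        have : (Eᶜ : Set ℂ).domRestrict D = fun x : (Eᶜ : Set ℂ) => Φ.a (h x) := by
          ext x
          exact hval x
        rw [this]
        exact Φ.a_continuousOn.comp_continuous (continuous_subtype_val.comp h.continuous)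
          (fun x => Φ.E_sub (h x).2)
      exact (h1.continuousAt (Φ.hE.isClosed.isOpen_compl.mem_nhds hzE)).continuousWithinAt
    · have hzK : z ∈ K := by
        rcases (Φ.hEK z).mp (not_not.mp hzE) with h1 | h1
        · exact absurd h1 hz
        · exact h1
      obtain ⟨e', he', ht⟩ := Φ.exists_image hh hzK
      obtain ⟨N, hN, hN'⟩ := mem_comap.mp (ht (Φ.hO.mem_nhds (Φ.hKO he')))
      have h2 : D =ᶠ[𝓝 z] fun _ => 0 := by
        filter_upwards [hN] with w hw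
        by_cases hwE : w ∈ Eᶜ
        · have h3 : D w = Φ.a (h ⟨w, hwE⟩) := dif_pos hwE
          rw [h3]
          have h4 : (⟨w, hwE⟩ : (Eᶜ : Set ℂ)) ∈ (fun x => (h x : ℂ)) ⁻¹' Φ.O := hN' hw
          exact Φ.a_zero h4
        · exact dif_neg hwE
      exact (continuousAt_const.congr h2.symm).continuousWithinAt
  obtain ⟨k, ψ, hψ, hk⟩ := circle_punctured p hD
  refine ⟨k, fun z => ψ z - k * Φ.κ z, hψ.sub (continuousOn_const.mul Φ.hκ), fun x => ?_⟩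
  rw [← hval x, hk x (Φ.ne_of_notMem x.2), AddCircle.coe_sub, ← zsmul_eq_mul,
    AddCircle.coe_zsmul, Frame.a, smul_add]
  abel

include Φ in
/-- A small circle around `p`. -/
lemma exists_circ : ∃ r > 0, ∀ x, circ p r x ∈ Eᶜ := by
  have h1 : Kᶜ ∈ 𝓝 p := Φ.hK.isClosed.isOpen_compl.mem_nhds Φ.hpK
  obtain ⟨r, hr, hb⟩ := Metric.mem_nhds_iff.mp h1
  refine ⟨r / 2, half_pos hr, fun x hx => ?_⟩
  have h2 := dist_circ p (half_pos hr) x
  rcases (Φ.hEK _).mp hx with h3 | h3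
  · rw [h3, dist_self] at h2
    linarith
  · refine hb ?_ h3
    rw [mem_ball, h2]
    linarith

theorem unique {k k' : ℤ} {φ φ' : (Eᶜ : Set ℂ) → ℝ} (hφ : Continuous φ) (hφ' : Continuous φ')
    (h : ∀ x : (Eᶜ : Set ℂ), k • Φ.a x + ((φ x : ℝ) : UnitAddCircle) =
      k' • Φ.a x + ((φ' x : ℝ) : UnitAddCircle)) :
    k = k' ∧ ∃ n : ℤ, ∀ x, φ x = φ' x + n := by
  obtain ⟨r, hr, hc⟩ := Φ.exists_circ
  let c : C(UnitAddCircle, (Eᶜ : Set ℂ)) := ⟨fun x => ⟨circ p r x, hc x⟩,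
    Continuous.subtype_mk (circ_continuous p r) _⟩
  have hκc : Continuous (fun x : (Eᶜ : Set ℂ) => Φ.κ x) :=
    Φ.hκ.comp_continuous continuous_subtype_val (fun x => Φ.E_sub x.2)
  have hk : k = k' := by
    have h1 : (k - k') • ContinuousMap.id UnitAddCircle ∈ liftable UnitAddCircle := by
      rw [mem_liftable_iff]
      refine ⟨⟨fun x => φ' (c x) - φ (c x) - (k - k' : ℤ) * Φ.κ (c x), ?_⟩, fun x => ?_⟩
      · exact ((hφ'.comp c.continuous).sub (hφ.comp c.continuous)).sub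
          (continuous_const.mul (hκc.comp c.continuous))
      · have h2 := h (c x)
        have h3 : Φ.a (c x) = x + ((Φ.κ (c x) : ℝ) : UnitAddCircle) := by
          change ang (circ p r x - p) + _ = _
          rw [circ_ang p hr]
        change ((φ' (c x) - φ (c x) - (k - k' : ℤ) * Φ.κ (c x) : ℝ) : UnitAddCircle) =
          (k - k') • x
        rw [← zsmul_eq_mul, AddCircle.coe_sub, AddCircle.coe_zsmul, AddCircle.coe_sub]
        have h4 : ((φ' (c x) : ℝ) : UnitAddCircle) - ((φ (c x) : ℝ) : UnitAddCircle) =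
            (k - k') • Φ.a (c x) := by
          rw [sub_smul, sub_eq_sub_iff_add_eq_add, add_comm, ← h2, add_comm]
        rw [h4, h3, smul_add]
        abel
    have := zsmul_id_liftable h1
    omega
  refine ⟨hk, ?_⟩
  subst hk
  have hpre : IsPreconnected (univ : Set (Eᶜ : Set ℂ)) := by
    have h1 := isPreconnected_diff isOpen_univ isPreconnected_univ Φ.hE Φ.htd (subset_univ E)
    rw [← compl_eq_univ_sdiff] at h1
    have h2 := isPreconnected_preimage_val h1 subset_rfl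
    convert h2 using 1
    ext x
    simp only [mem_univ, mem_preimage, true_iff]
    exact x.2
  have hint : ∀ x, ∃ n : ℤ, φ x - φ' x = n := by
    intro x
    exact exists_int_of_coe_eq (add_left_cancel (h x))
  rcases isEmpty_or_nonempty (Eᶜ : Set ℂ) with he | ⟨⟨x₀⟩⟩
  · exact ⟨0, fun x => (he.false x).elim⟩
  obtain ⟨n, hn⟩ := hint x₀
  refine ⟨n, fun x => ?_⟩
  have h1 := const_of_int hpre (fun x => φ x - φ' x) (hφ.sub hφ').continuousOn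
    (fun y _ => hint y) (mem_univ x) (mem_univ x₀)
  linarith

variable {Φ}

lemma Disp.continuous {h : (Eᶜ : Set ℂ) ≃ₜ (Eᶜ : Set ℂ)} {k : ℤ} {φ : ℂ → ℝ}
    (hd : Φ.Disp h k φ) : Continuous (fun x : (Eᶜ : Set ℂ) => φ x) :=
  hd.1.comp_continuous continuous_subtype_val (fun x => Φ.E_sub x.2)

lemma Disp.tendsto {h : (Eᶜ : Set ℂ) ≃ₜ (Eᶜ : Set ℂ)} {k : ℤ} {φ : ℂ → ℝ}
    (hd : Φ.Disp h k φ) {e : ℂ} (he : e ∈ K) :
    Tendsto (fun x : (Eᶜ : Set ℂ) => φ x) (comap (Subtype.val : (Eᶜ : Set ℂ) → ℂ) (𝓝 e))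
      (𝓝 (φ e)) :=
  (hd.1.continuousAt (isOpen_compl_singleton.mem_nhds (Φ.ne_of_mem he))).tendsto.comp
    tendsto_comap

lemma disp_one : Φ.Disp 1 1 0 := by
  refine ⟨continuousOn_const, fun x => ?_⟩
  simp

/-- The displacement of a product. -/
lemma Disp.mul {g h : (Eᶜ : Set ℂ) ≃ₜ (Eᶜ : Set ℂ)} {k k' k'' : ℤ} {φ φ' φ'' : ℂ → ℝ}
    (hg : Φ.Disp g k φ) (hh : Φ.Disp h k' φ') (hgh : Φ.Disp (g * h) k'' φ'') :
    k'' = k * k' ∧ ∃ n : ℤ, ∀ e ∈ K, ∀ e' ∈ K,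
      Tendsto (fun x => (h x : ℂ)) (comap (Subtype.val : (Eᶜ : Set ℂ) → ℂ) (𝓝 e)) (𝓝 e') →
      φ'' e = k * φ' e + φ e' + n := by
  have hc : Continuous (fun x : (Eᶜ : Set ℂ) => k * φ' x + φ (h x)) :=
    (continuous_const.mul hh.continuous).add (hg.continuous.comp h.continuous)
  obtain ⟨h1, n, hn⟩ := Φ.unique (k := k'') (k' := k * k') (φ := fun x => φ'' x)
    (φ' := fun x => k * φ' x + φ (h x)) hgh.continuous hc (by
      intro x
      have e1 := hgh.2 x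
      have e2 := hg.2 (h x)
      have e3 := hh.2 x
      rw [← e1]
      change Φ.a (g (h x)) = _
      rw [e2, e3, smul_add, AddCircle.coe_add, ← zsmul_eq_mul, AddCircle.coe_zsmul, mul_smul]
      abel)
  refine ⟨h1, n, fun e he e' he' ht => ?_⟩
  have := Φ.neBot he
  have l1 := hgh.tendsto he
  have l2 : Tendsto (fun x : (Eᶜ : Set ℂ) => φ (h x))
      (comap (Subtype.val : (Eᶜ : Set ℂ) → ℂ) (𝓝 e)) (𝓝 (φ e')) :=
    (hg.1.continuousAt (isOpen_compl_singleton.mem_nhds (Φ.ne_of_mem he'))).tendsto.comp ht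
  have l3 : Tendsto (fun x : (Eᶜ : Set ℂ) => k * φ' x + φ (h x) + n)
      (comap (Subtype.val : (Eᶜ : Set ℂ) → ℂ) (𝓝 e)) (𝓝 (k * φ' e + φ e' + n)) :=
    (((hh.tendsto he).const_mul _).add l2).add_const _
  exact tendsto_nhds_unique l1 (l3.congr fun x => (hn x).symm)

variable (Φ)

open Classical in
/-- The length function. -/
noncomputable def len (h : (Eᶜ : Set ℂ) ≃ₜ (Eᶜ : Set ℂ)) : ℝ :=
  if H : ∃ k φ, Φ.Disp h k φ then Metric.diam (H.choose_spec.choose '' K) else 0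

variable {Φ}

include Φ in
lemma bdd {φ : ℂ → ℝ} (hφ : ContinuousOn φ {p}ᶜ) : Bornology.IsBounded (φ '' K) :=
  (Φ.hK.image_of_continuousOn (hφ.mono Φ.K_sub')).isBounded

lemma Disp.len_eq {h : (Eᶜ : Set ℂ) ≃ₜ (Eᶜ : Set ℂ)} {k : ℤ} {φ : ℂ → ℝ}
    (hd : Φ.Disp h k φ) : Φ.len h = Metric.diam (φ '' K) := by
  have H : ∃ k φ, Φ.Disp h k φ := ⟨k, φ, hd⟩
  have hd' : Φ.Disp h H.choose H.choose_spec.choose := H.choose_spec.choose_spec
  have h0 : Φ.len h = Metric.diam (H.choose_spec.choose '' K) := dif_pos H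
  rw [h0]
  set k' := H.choose
  set φ' := H.choose_spec.choose
  obtain ⟨-, n, hn⟩ := Φ.unique hd'.continuous hd.continuous (fun x => by
    rw [← hd.2 x, ← hd'.2 x])
  have hK : ∀ e ∈ K, φ' e = φ e + n := by
    intro e he
    have := Φ.neBot he
    exact tendsto_nhds_unique (hd'.tendsto he)
      (((hd.tendsto he).add_const (n : ℝ)).congr fun x => (hn x).symm)
  apply le_antisymm
  · refine Metric.diam_le_of_forall_dist_le Metric.diam_nonneg ?_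
    rintro _ ⟨x, hx, rfl⟩ _ ⟨y, hy, rfl⟩
    rw [hK x hx, hK y hy, dist_add_right]
    exact Metric.dist_le_diam_of_mem (bdd (Φ := Φ) hd.1) (mem_image_of_mem _ hx)
      (mem_image_of_mem _ hy)
  · refine Metric.diam_le_of_forall_dist_le Metric.diam_nonneg ?_
    rintro _ ⟨x, hx, rfl⟩ _ ⟨y, hy, rfl⟩
    rw [← dist_add_right _ _ (n : ℝ), ← hK x hx, ← hK y hy]
    exact Metric.dist_le_diam_of_mem (bdd (Φ := Φ) hd'.1) (mem_image_of_mem _ hx)
      (mem_image_of_mem _ hy)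

lemma Disp.le_len {h : (Eᶜ : Set ℂ) ≃ₜ (Eᶜ : Set ℂ)} {k : ℤ} {φ : ℂ → ℝ}
    (hd : Φ.Disp h k φ) {x y : ℂ} (hx : x ∈ K) (hy : y ∈ K) : |φ x - φ y| ≤ Φ.len h := by
  rw [hd.len_eq, ← Real.dist_eq]
  exact Metric.dist_le_diam_of_mem (bdd (Φ := Φ) hd.1) (mem_image_of_mem _ hx)
      (mem_image_of_mem _ hy)

lemma len_nonneg (h : (Eᶜ : Set ℂ) ≃ₜ (Eᶜ : Set ℂ)) : 0 ≤ Φ.len h := by
  unfold len
  split_ifs
  · exact Metric.diam_nonneg
  · exact le_refl _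

lemma Disp.len_le {h : (Eᶜ : Set ℂ) ≃ₜ (Eᶜ : Set ℂ)} {k : ℤ} {φ : ℂ → ℝ}
    (hd : Φ.Disp h k φ) {C : ℝ} (hC : 0 ≤ C) (hle : ∀ x ∈ K, ∀ y ∈ K, |φ x - φ y| ≤ C) :
    Φ.len h ≤ C := by
  rw [hd.len_eq]
  refine Metric.diam_le_of_forall_dist_le hC ?_
  rintro _ ⟨x, hx, rfl⟩ _ ⟨y, hy, rfl⟩
  exact hle x hx y hy

lemma len_one : Φ.len 1 = 0 := by
  refine le_antisymm (disp_one.len_le le_rfl fun x _ y _ => by simp) (len_nonneg _)

lemma Disp.abs_eq_one {h : (Eᶜ : Set ℂ) ≃ₜ (Eᶜ : Set ℂ)} (hh : h ∈ Φ.fix) {k : ℤ} {φ : ℂ → ℝ}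
    (hd : Φ.Disp h k φ) : |(k : ℝ)| = 1 := by
  obtain ⟨k', φ', hd'⟩ := Φ.exists_disp (Φ.fix.inv_mem hh)
  have h1 : Φ.Disp (h * h⁻¹) 1 0 := by
    rw [mul_inv_cancel]
    exact disp_one
  obtain ⟨h2, -⟩ := hd.mul hd' h1
  rcases Int.eq_one_or_neg_one_of_mul_eq_one h2.symm with rfl | rfl <;> simp

lemma len_mul_le {g h : (Eᶜ : Set ℂ) ≃ₜ (Eᶜ : Set ℂ)} (hg : g ∈ Φ.fix) (hh : h ∈ Φ.fix) :
    Φ.len (g * h) ≤ Φ.len g + Φ.len h := by
  obtain ⟨k, φ, hd⟩ := Φ.exists_disp hg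
  obtain ⟨k', φ', hd'⟩ := Φ.exists_disp hh
  obtain ⟨k'', φ'', hd''⟩ := Φ.exists_disp (Φ.fix.mul_mem hg hh)
  obtain ⟨-, n, hn⟩ := hd.mul hd' hd''
  refine hd''.len_le (add_nonneg (len_nonneg _) (len_nonneg _)) fun x hx y hy => ?_
  obtain ⟨x', hx', htx⟩ := Φ.exists_image hh hx
  obtain ⟨y', hy', hty⟩ := Φ.exists_image hh hy
  rw [hn x hx x' hx' htx, hn y hy y' hy' hty]
  have e1 := hd.le_len hx' hy'
  have e2 := hd'.le_len hx hy
  have e3 := hd.abs_eq_one hg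
  have e4 : |(k : ℝ) * (φ' x - φ' y)| ≤ Φ.len h := by rw [abs_mul, e3, one_mul]; exact e2
  calc |(k : ℝ) * φ' x + φ x' + n - (k * φ' y + φ y' + n)| =
      |(φ x' - φ y') + k * (φ' x - φ' y)| := by congr 1; ring
    _ ≤ _ := (abs_add_le _ _).trans (add_le_add e1 e4)

lemma len_le_inv {h : (Eᶜ : Set ℂ) ≃ₜ (Eᶜ : Set ℂ)} (hh : h ∈ Φ.fix) :
    Φ.len h ≤ Φ.len h⁻¹ := by
  obtain ⟨k', φ', hd'⟩ := Φ.exists_disp hh
  obtain ⟨k, φ, hd⟩ := Φ.exists_disp (Φ.fix.inv_mem hh)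
  have h1 : Φ.Disp (h⁻¹ * h) 1 0 := by
    rw [inv_mul_cancel]
    exact disp_one
  obtain ⟨-, n, hn⟩ := hd.mul hd' h1
  refine hd'.len_le (len_nonneg _) fun x hx y hy => ?_
  obtain ⟨x', hx', htx⟩ := Φ.exists_image hh hx
  obtain ⟨y', hy', hty⟩ := Φ.exists_image hh hy
  have e1 := hn x hx x' hx' htx
  have e2 := hn y hy y' hy' hty
  have e3 := hd.abs_eq_one (Φ.fix.inv_mem hh)
  have e4 := hd.le_len hx' hy'
  simp only [Pi.zero_apply] at e1 e2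
  have e5 : |(k : ℝ) * (φ' x - φ' y)| = |φ x' - φ y'| := by
    rw [← abs_neg]
    congr 1
    linarith
  rw [abs_mul, e3, one_mul] at e5
  rw [e5]
  exact e4

lemma len_inv {h : (Eᶜ : Set ℂ) ≃ₜ (Eᶜ : Set ℂ)} (hh : h ∈ Φ.fix) :
    Φ.len h⁻¹ = Φ.len h := by
  apply le_antisymm
  · have := len_le_inv (Φ.fix.inv_mem hh)
    rwa [inv_inv] at this
  · exact len_le_inv hh

end Frame

end Pool.Agent.Helper2.Planar
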