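import Mathlib
import Pool.Agent.Helper2.Planar.Disp

/-!
# The displacement length vanishes near the identity
-/

set_option autoImplicit false

open Topology unitInterval Set Filter Metric

namespace Pool.Agent.Helper2.Planar

open Pool.Agent.Helper2.Genus

lemma eq_of_small {Y : Type*} [TopologicalSpace Y] {Γ : Set Y} (hΓ : IsPreconnected Γ)
    {φ : Y → ℝ} (hφ : ContinuousOn φ Γ)
    (hs : ∀ x ∈ Γ, ‖((φ x : ℝ) : UnitAddCircle)‖ < 1/4) {x y : Y} (hx : x ∈ Γ) (hy : y ∈ Γ)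
    (hxn : ∃ n : ℤ, φ x = n) (hyn : ∃ n : ℤ, φ y = n) : φ x = φ y := by
  by_contra hne
  wlog hlt : φ x < φ y generalizing x y
  · exact this hy hx hyn hxn (Ne.symm hne) (lt_of_le_of_ne (not_lt.mp hlt) (Ne.symm hne))
  obtain ⟨n, hn⟩ := hxn
  obtain ⟨m, hm⟩ := hyn
  have himg := hΓ.intermediate_value hx hy hφ
  have hmem : (n : ℝ) + 1/2 ∈ Icc (φ x) (φ y) := by
    rw [hn, hm] at hlt ⊢
    have h1 : n < m := by exact_mod_cast hlt
    have h2 : (n : ℝ) + 1 ≤ m := by exact_mod_cast h1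
    constructor <;> linarith
  obtain ⟨z, hz, hz2⟩ := himg hmem
  have h3 := hs z hz
  have h4 : ((φ z : ℝ) : UnitAddCircle) = ((1/2 : ℝ) : UnitAddCircle) := by
    rw [hz2, AddCircle.coe_add]
    have : ((n : ℝ) : UnitAddCircle) = 0 := by
      rw [AddCircle.coe_eq_zero_iff]
      exact ⟨n, by simp⟩
    rw [this, zero_add]
  rw [h4, norm_coe_of_abs_le (by norm_num)] at h3
  norm_num at h3

namespace Frame

variable {E K : Set ℂ} {p : ℂ} (Φ : Frame E K p)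

lemma eventually_close {Γ : Set (Eᶜ : Set ℂ)} (hΓ : IsCompact Γ) :
    ∀ᶠ g : (Eᶜ : Set ℂ) ≃ₜ (Eᶜ : Set ℂ) in 𝓝 1, ∀ x ∈ Γ, ‖Φ.a (g x) - Φ.a x‖ < 1/4 := by
  let A : C((Eᶜ : Set ℂ), UnitAddCircle) := ⟨fun x => Φ.a x,
    Φ.a_continuousOn.comp_continuous continuous_subtype_val (fun x => Φ.E_sub x.2)⟩
  have hc : Continuous (fun g : (Eᶜ : Set ℂ) ≃ₜ (Eᶜ : Set ℂ) =>
      A.comp (⟨g, g.continuous⟩ : C((Eᶜ : Set ℂ), (Eᶜ : Set ℂ)))) :=
    (ContinuousMap.continuous_postcomp A).comp continuous_induced_dom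
  have h1 := hc.tendsto 1
  rw [ContinuousMap.tendsto_iff_forall_isCompact_tendstoUniformlyOn] at h1
  have h2 := Metric.tendstoUniformlyOn_iff.mp (h1 Γ hΓ) (1/4) (by norm_num)
  filter_upwards [h2] with g hg x hx
  have h3 := hg x hx
  rw [dist_comm, dist_eq_norm] at h3
  exact h3

include Φ in
lemma isPathConnected : IsPathConnected (Eᶜ : Set ℂ) := by
  rw [← IsOpen.isConnected_iff_isPathConnected Φ.hE.isClosed.isOpen_compl]
  have h1 := isPreconnected_diff isOpen_univ isPreconnected_univ Φ.hE Φ.htd (subset_univ E)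
  rw [← compl_eq_univ_sdiff] at h1
  refine ⟨?_, h1⟩
  have := nonempty_diff Φ.htd isOpen_univ univ_nonempty
  rwa [← compl_eq_univ_sdiff] at this

include Φ in
lemma exists_arc (x y : (Eᶜ : Set ℂ)) :
    ∃ Γ : Set (Eᶜ : Set ℂ), IsCompact Γ ∧ IsPreconnected Γ ∧ x ∈ Γ ∧ y ∈ Γ := by
  have : PathConnectedSpace (Eᶜ : Set ℂ) := isPathConnected_iff_pathConnectedSpace.mp
    Φ.isPathConnected
  obtain ⟨γ⟩ := PathConnectedSpace.joined x y
  exact ⟨range γ, isCompact_range γ.continuous, isPreconnected_range γ.continuous,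
    ⟨0, γ.source⟩, ⟨1, γ.target⟩⟩

lemma p_isolated (Φ : Frame E K p) :
    ∃ N ∈ 𝓝 ((p : ℂ) : OnePoint ℂ), N ∩ (range (toSphere E))ᶜ ⊆ {((p : ℂ) : OnePoint ℂ)} := by
  refine ⟨((↑) : ℂ → OnePoint ℂ) '' Kᶜ, ?_, ?_⟩
  · rw [OnePoint.nhds_coe_eq]
    exact image_mem_map (Φ.hK.isClosed.isOpen_compl.mem_nhds Φ.hpK)
  · rintro _ ⟨⟨z, hz, rfl⟩, hz2⟩
    rcases notMem_range_iff.mp hz2 with h | ⟨w, hw, hwz⟩
    · exact absurd h (OnePoint.coe_ne_infty _)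
    · have h1 : w = z := OnePoint.coe_injective hwz
      subst h1
      rcases (Φ.hEK w).mp hw with rfl | h2
      · rfl
      · exact absurd h2 hz

lemma infty_isolated (Φ : Frame E K p) :
    ∃ N ∈ 𝓝 (OnePoint.infty : OnePoint ℂ), N ∩ (range (toSphere E))ᶜ ⊆ {OnePoint.infty} := by
  refine ⟨(((↑) : ℂ → OnePoint ℂ) '' E)ᶜ, ?_, ?_⟩
  · refine IsOpen.mem_nhds ?_ OnePoint.infty_notMem_image_coe
    exact OnePoint.isOpen_compl_image_coe.mpr ⟨Φ.hE.isClosed, Φ.hE⟩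
  · rintro z ⟨hz, hz2⟩
    rcases notMem_range_iff.mp hz2 with h | ⟨w, hw, hwz⟩
    · exact h
    · exact absurd ⟨w, hw, hwz⟩ hz

theorem near_one : ∀ᶠ g : (Eᶜ : Set ℂ) ≃ₜ (Eᶜ : Set ℂ) in 𝓝 1, g ∈ Φ.fix ∧ Φ.len g = 0 := by
  have hopen : IsOpen (Eᶜ : Set ℂ) := Φ.hE.isClosed.isOpen_compl
  have hlc : LocallyConnectedSpace (Eᶜ : Set ℂ) := hopen.locallyConnectedSpace
  have hfix : ∀ᶠ g : (Eᶜ : Set ℂ) ≃ₜ (Eᶜ : Set ℂ) in 𝓝 1, g ∈ Φ.fix :=
    (endStab_near_one Φ.D Φ.p_notMem Φ.p_isolated).and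
      (endStab_near_one Φ.D Φ.infty_notMem Φ.infty_isolated)
  -- the neighbourhoods of the points of `K`
  have hN : ∀ e : ℂ, ∃ N : Set (OnePoint ℂ), e ∈ K → (N ∈ 𝓝 (e : OnePoint ℂ) ∧
      IsPreconnected (toSphere E ⁻¹' N) ∧ N ⊆ ((↑) : ℂ → OnePoint ℂ) '' Φ.O ∧
      ∀ᶠ g : (Eᶜ : Set ℂ) ≃ₜ (Eᶜ : Set ℂ) in 𝓝 1, ∀ x, toSphere E x ∈ N →
        toSphere E (g x) ∈ ((↑) : ℂ → OnePoint ℂ) '' Φ.O) := by
    intro e
    by_cases he : e ∈ K
    · have hU : ((↑) : ℂ → OnePoint ℂ) '' Φ.O ∈ 𝓝 (e : OnePoint ℂ) := by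
        rw [OnePoint.nhds_coe_eq]
        exact image_mem_map (Φ.hO.mem_nhds (Φ.hKO he))
      obtain ⟨N, h1, h2, h3, h4⟩ := Φ.D.near_one (Φ.K_notMem he) hU
      exact ⟨N, fun _ => ⟨h1, h2, h3, h4⟩⟩
    · exact ⟨∅, fun h => absurd h he⟩
  choose N hN using hN
  have hmemO : ∀ x : (Eᶜ : Set ℂ), toSphere E x ∈ ((↑) : ℂ → OnePoint ℂ) '' Φ.O →
      (x : ℂ) ∈ Φ.O := by
    rintro x ⟨w, hw, hwx⟩
    have : w = x := OnePoint.coe_injective hwx
    rwa [← this]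
  obtain ⟨t, htK, ht⟩ := Φ.hK.elim_nhds_subcover
    (fun e => ((↑) : ℂ → OnePoint ℂ) ⁻¹' interior (N e)) (fun e he => by
      have h1 : interior (N e) ∈ 𝓝 (e : OnePoint ℂ) := interior_mem_nhds.mpr (hN e he).1
      exact OnePoint.continuous_coe.continuousAt.preimage_mem_nhds h1)
  -- base points
  have hx : ∀ e : ℂ, ∃ x : (Eᶜ : Set ℂ), e ∈ K → toSphere E x ∈ N e := by
    intro e
    by_cases he : e ∈ K
    · have := Φ.D.dense _ (Φ.K_notMem he)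
      obtain ⟨x, hx⟩ := Filter.nonempty_of_mem (preimage_mem_comap (m := toSphere E) (hN e he).1)
      exact ⟨x, fun _ => hx⟩
    · obtain ⟨x, hx⟩ := Φ.isPathConnected.nonempty
      exact ⟨⟨x, hx⟩, fun h => absurd h he⟩
  choose x hx using hx
  choose Γ hΓ using fun q : ℂ × ℂ => Φ.exists_arc (x q.1) (x q.2)
  obtain ⟨r, hr, hc⟩ := Φ.exists_circ
  let c : C(UnitAddCircle, (Eᶜ : Set ℂ)) := ⟨fun x => ⟨circ p r x, hc x⟩,
    Continuous.subtype_mk (circ_continuous p r) _⟩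
  have hev1 : ∀ᶠ g : (Eᶜ : Set ℂ) ≃ₜ (Eᶜ : Set ℂ) in 𝓝 1, ∀ q ∈ t ×ˢ t, ∀ x ∈ Γ q,
      ‖Φ.a (g x) - Φ.a x‖ < 1/4 :=
    (Finset.eventually_all (t ×ˢ t)).mpr fun q _ => Φ.eventually_close (hΓ q).1
  have hev2 := Φ.eventually_close (isCompact_range c.continuous)
  have hev3 : ∀ᶠ g : (Eᶜ : Set ℂ) ≃ₜ (Eᶜ : Set ℂ) in 𝓝 1, ∀ e ∈ t, ∀ x, toSphere E x ∈ N e →
        toSphere E (g x) ∈ ((↑) : ℂ → OnePoint ℂ) '' Φ.O :=
    (Finset.eventually_all t).mpr fun e he => (hN e (htK e he)).2.2.2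
  filter_upwards [hfix, hev1, hev2, hev3] with g hg h1 h2 h3
  refine ⟨hg, ?_⟩
  obtain ⟨k, φ, hd⟩ := Φ.exists_disp hg
  have hκc : Continuous (fun x : (Eᶜ : Set ℂ) => Φ.κ x) :=
    Φ.hκ.comp_continuous continuous_subtype_val (fun x => Φ.E_sub x.2)
  have hac : Continuous (fun x : (Eᶜ : Set ℂ) => Φ.a x) :=
    Φ.a_continuousOn.comp_continuous continuous_subtype_val (fun x => Φ.E_sub x.2)
  have hk : k = 1 := by
    let β : C(UnitAddCircle, UnitAddCircle) := ⟨fun y => Φ.a (g (c y)) - Φ.a (c y),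
      (hac.comp (g.continuous.comp c.continuous)).sub (hac.comp c.continuous)⟩
    have hβ : β ∈ liftable UnitAddCircle := liftable_of_small β fun y => h2 _ (mem_range_self y)
    obtain ⟨b, hb⟩ := mem_liftable_iff.mp hβ
    have h4 : (k - 1) • ContinuousMap.id UnitAddCircle ∈ liftable UnitAddCircle := by
      rw [mem_liftable_iff]
      refine ⟨⟨fun y => b y - φ (c y) - (k - 1 : ℤ) * Φ.κ (c y), ?_⟩, fun y => ?_⟩
      · exact (b.continuous.sub (hd.continuous.comp c.continuous)).sub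
          (continuous_const.mul (hκc.comp c.continuous))
      · have e2 := hb y
        have e3 : Φ.a (c y) = y + ((Φ.κ (c y) : ℝ) : UnitAddCircle) := by
          change ang (circ p r y - p) + _ = _
          rw [circ_ang p hr]
        have e4 := hd.2 (c y)
        change ((b y - φ (c y) - (k - 1 : ℤ) * Φ.κ (c y) : ℝ) : UnitAddCircle) = (k - 1) • y
        have e5 : ((b y : ℝ) : UnitAddCircle) = Φ.a (g (c y)) - Φ.a (c y) := e2
        rw [← zsmul_eq_mul, AddCircle.coe_sub, AddCircle.coe_zsmul, AddCircle.coe_sub, e5, e4, e3]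
        rw [smul_add, sub_smul, sub_smul, one_smul, one_smul]
        abel
    have := zsmul_id_liftable h4
    omega
  subst hk
  have hφ : ∀ y : (Eᶜ : Set ℂ), ((φ y : ℝ) : UnitAddCircle) = Φ.a (g y) - Φ.a y := by
    intro y
    rw [hd.2 y, one_smul]
    abel
  have hint : ∀ e ∈ t, ∀ y, toSphere E y ∈ N e → ∃ n : ℤ, φ y = n := by
    intro e he y hy
    have e1 : Φ.a y = 0 := Φ.a_zero (hmemO y ((hN e (htK e he)).2.2.1 hy))
    have e2 : Φ.a (g y) = 0 := Φ.a_zero (hmemO _ (h3 e he y hy))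
    have e3 := hφ y
    rw [e1, e2, sub_zero] at e3
    obtain ⟨n, hn⟩ := exists_int_of_coe_eq (s := φ y) (t := 0) (by rw [e3]; simp)
    exact ⟨n, by rw [← hn, sub_zero]⟩
  have hconst : ∀ e ∈ t, ∀ y, toSphere E y ∈ N e → φ y = φ (x e) := by
    intro e he y hy
    exact const_of_int (hN e (htK e he)).2.1 (fun y : (Eᶜ : Set ℂ) => φ y)
      hd.continuous.continuousOn (fun z hz => hint e he z hz) hy (hx e (htK e he))
  have hval : ∀ e ∈ t, ∀ e' ∈ K, (e' : OnePoint ℂ) ∈ interior (N e) → φ e' = φ (x e) := by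
    intro e he e' he' hmem
    have := Φ.neBot he'
    have l1 := hd.tendsto he'
    have hmem2 : toSphere E ⁻¹' N e ∈ comap (toSphere E) (𝓝 (e' : OnePoint ℂ)) :=
      preimage_mem_comap (mem_interior_iff_mem_nhds.mp hmem)
    rw [comap_toSphere] at hmem2
    have l2 : Tendsto (fun x : (Eᶜ : Set ℂ) => φ x)
        (comap (Subtype.val : (Eᶜ : Set ℂ) → ℂ) (𝓝 e')) (𝓝 (φ (x e))) := by
      refine tendsto_const_nhds.congr' ?_
      filter_upwards [hmem2] with y hy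
      exact (hconst e he y hy).symm
    exact tendsto_nhds_unique l1 l2
  have hall : ∀ e ∈ t, ∀ e' ∈ t, φ (x e) = φ (x e') := by
    intro e he e' he'
    have hmem : (e, e') ∈ t ×ˢ t := Finset.mem_product.mpr ⟨he, he'⟩
    obtain ⟨g1, g2, g3, g4⟩ := hΓ (e, e')
    refine eq_of_small g2 (φ := fun y : (Eᶜ : Set ℂ) => φ y) hd.continuous.continuousOn
      (fun y hy => ?_) g3 g4 (hint e he _ (hx e (htK e he))) (hint e' he' _ (hx e' (htK e' he')))
    rw [hφ y]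
    exact h1 _ hmem y hy
  refine le_antisymm (hd.len_le le_rfl fun y hy z hz => ?_) (len_nonneg _)
  obtain ⟨e, he, hye⟩ := mem_iUnion₂.mp (ht hy)
  obtain ⟨e', he', hze⟩ := mem_iUnion₂.mp (ht hz)
  rw [hval e he y hy hye, hval e' he' z hz hze, hall e he e' he', sub_self, abs_zero]

end Frame

end Pool.Agent.Helper2.Planar
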