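import Mathlib
import Pool.Agent.Helper2.Planar.Push

/-!
# Two independent pushes
-/

set_option autoImplicit false

open Topology unitInterval Set Filter Metric

namespace Pool.Agent.Helper2.Planar

open Pool.Agent.Helper2.Genus

variable {K : Set ℂ} {p : ℂ}

lemma ang_neg_sub (e z : ℂ) (h : z ≠ e) : ang (e - z) = ang (-1) + ang (z - e) := by
  rw [← ang_mul (by norm_num) (sub_ne_zero.mpr h)]
  congr 1
  ring

lemma ang_rev_continuousOn (e : ℂ) : ContinuousOn (fun z => ang (e - z)) {e}ᶜ := by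
  have h1 : ContinuousOn (fun z => ang (-1) + ang (z - e)) {e}ᶜ :=
    continuousOn_const.add (ang_continuousOn e)
  exact h1.congr (fun z hz => ang_neg_sub e z hz)

/-- **Rigidity.**  No nontrivial combination of the displacements at three points vanishes for all
the pushes of `p` around. -/
theorem push_rigid (hK : IsCompact K) (htd : IsTotallyDisconnected K) (hp : p ∉ K)
    {e₁ e₂ e₃ : ℂ} (h1 : e₁ ∈ K) (h2 : e₂ ∈ K) (h3 : e₃ ∈ K) (h12 : e₁ ≠ e₂) (h13 : e₁ ≠ e₃)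
    (a b : ℤ) (H : ∀ h Λ, Push K p p h Λ →
      (a : ℝ) * (Λ e₁ - Λ e₃) + b * (Λ e₂ - Λ e₃) = 0) : a = 0 := by
  classical
  have hreach : ∀ y : ℂ, ∃ q : (ℂ ≃ₜ ℂ) × (ℂ → ℝ), y ∉ K → Push K p y q.1 q.2 := by
    intro y
    by_cases hy : y ∉ K
    · obtain ⟨h, Λ, hh⟩ := exists_push_all hK htd hp hy
      exact ⟨(h, Λ), fun _ => hh⟩
    · exact ⟨(Homeomorph.refl ℂ, 0), fun h => absurd h hy⟩
  choose q hq using hreach
  let F : (ℂ → ℝ) → ℝ := fun Λ => (a : ℝ) * (Λ e₁ - Λ e₃) + b * (Λ e₂ - Λ e₃)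
  let ψ : ℂ → ℝ := fun y => F (q y).2
  have hne : ∀ {e : ℂ}, e ∈ K → e ≠ p := fun {e} he h => hp (h ▸ he)
  have hψ : ∀ {y : ℂ} (hy : y ∉ K) {h : ℂ ≃ₜ ℂ} {Λ : ℂ → ℝ}, Push K p y h Λ → F Λ = ψ y := by
    intro y hy h Λ hh
    have e0 := H _ _ (hh.trans (hq y hy).symm)
    have e1 : ∀ e ∈ K, (q y).1.symm (h e) = e := by
      intro e he
      rw [hh.2.1 e he]
      exact (hq y hy).symm.2.1 e he
    simp only [e1 e₁ h1, e1 e₂ h2, e1 e₃ h3] at e0
    change (a : ℝ) * (Λ e₁ - Λ e₃) + b * (Λ e₂ - Λ e₃) =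
      (a : ℝ) * ((q y).2 e₁ - (q y).2 e₃) + b * ((q y).2 e₂ - (q y).2 e₃)
    linarith
  let β : ℂ → UnitAddCircle := fun y => a • ang (e₁ - y) + b • ang (e₂ - y) -
    (a + b) • ang (e₃ - y)
  have hψβ : ∀ y ∉ K, ((ψ y : ℝ) : UnitAddCircle) = β y - β p := by
    intro y hy
    obtain ⟨-, g2, -, g4⟩ := hq y hy
    have e1 := g4 e₁ (hne h1)
    have e2 := g4 e₂ (hne h2)
    have e3 := g4 e₃ (hne h3)
    rw [g2 _ h1] at e1
    rw [g2 _ h2] at e2
    rw [g2 _ h3] at e3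
    change (((a : ℝ) * ((q y).2 e₁ - (q y).2 e₃) + b * ((q y).2 e₂ - (q y).2 e₃) : ℝ) :
      UnitAddCircle) = _
    rw [AddCircle.coe_add, ← zsmul_eq_mul, ← zsmul_eq_mul, AddCircle.coe_zsmul,
      AddCircle.coe_zsmul, AddCircle.coe_sub, AddCircle.coe_sub, e1, e2, e3]
    simp only [β, add_smul, smul_sub]
    abel
  have hopen : IsOpen (Kᶜ : Set ℂ) := hK.isClosed.isOpen_compl
  have hcont : ∀ y ∉ K, ContinuousAt ψ y := by
    intro y hy
    obtain ⟨R, hR, hb⟩ := Metric.mem_nhds_iff.mp (hopen.mem_nhds hy)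
    have hb' : ∀ e ∈ K, R ≤ dist e y := fun e he => by
      by_contra hlt
      exact hb (mem_ball.mpr (not_le.mp hlt)) he
    let ρ : ℂ → ℂ → ℝ := fun e y' => (1 - (y' - y) / (e - y)).arg * ((2 * Real.pi)⁻¹ * 1)
    have hρ : ∀ e ∈ K, ContinuousAt (ρ e) y ∧ ρ e y = 0 := by
      intro e he
      have hc : ContinuousAt (fun y' => (1 - (y' - y) / (e - y))) y := by fun_prop
      have hy0 : (1 - (y - y) / (e - y)) = (1 : ℂ) := by simp
      have h5 : ContinuousAt Complex.arg ((fun y' => (1 - (y' - y) / (e - y))) y) := by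
        simp only [hy0]
        exact Complex.continuousAt_arg Complex.one_mem_slitPlane
      refine ⟨(ContinuousAt.comp (f := fun y' => (1 - (y' - y) / (e - y))) (g := Complex.arg)
        h5 hc).mul continuousAt_const, ?_⟩
      simp only [ρ, hy0, Complex.arg_one, zero_mul]
    have hev : (fun y' => ψ y + ((a : ℝ) * (ρ e₁ y' - ρ e₃ y') + b * (ρ e₂ y' - ρ e₃ y')))
        =ᶠ[𝓝 y] ψ := by
      filter_upwards [ball_mem_nhds y (by positivity : 0 < R / 4), ball_mem_nhds y hR]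
        with y' hy' hy'2
      obtain ⟨h, Λ, hh, hΛ⟩ := exists_push (K := K) hR (y := y) (y' := y') hb' (mem_ball.mp hy')
      have e1 := hψ (y := y') (hb hy'2) ((hq y hy).trans hh)
      obtain ⟨-, g2, -, -⟩ := hq y hy
      rw [← e1]
      change ψ y + _ = (a : ℝ) * (((q y).2 e₁ + Λ ((q y).1 e₁)) - ((q y).2 e₃ + Λ ((q y).1 e₃))) +
        b * (((q y).2 e₂ + Λ ((q y).1 e₂)) - ((q y).2 e₃ + Λ ((q y).1 e₃)))
      rw [g2 _ h1, g2 _ h2, g2 _ h3, hΛ _ h1, hΛ _ h2, hΛ _ h3]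
      change (a : ℝ) * ((q y).2 e₁ - (q y).2 e₃) + b * ((q y).2 e₂ - (q y).2 e₃) + _ = _
      simp only [ρ]
      ring
    refine ContinuousAt.congr ?_ hev
    have c1 := (hρ e₁ h1).1
    have c2 := (hρ e₂ h2).1
    have c3 := (hρ e₃ h3).1
    exact continuousAt_const.add ((continuousAt_const.mul (c1.sub c3)).add
      (continuousAt_const.mul (c2.sub c3)))
  -- extension over the other points of `K`
  let T : Set ℂ := {e₁, e₂, e₃}
  have hTo : IsOpen (Tᶜ : Set ℂ) := (Set.toFinite T).isClosed.isOpen_compl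
  have hβ : ContinuousOn β Tᶜ := by
    have hsub : ∀ e ∈ T, (Tᶜ : Set ℂ) ⊆ {e}ᶜ := fun e he z hz hze => hz (hze ▸ he)
    have c1 := (ang_rev_continuousOn e₁).mono (hsub e₁ (by simp [T]))
    have c2 := (ang_rev_continuousOn e₂).mono (hsub e₂ (by simp [T]))
    have c3 := (ang_rev_continuousOn e₃).mono (hsub e₃ (by simp [T]))
    exact ((c1.const_smul a).add (c2.const_smul b)).sub (c3.const_smul (a + b))
  have hdense : ∀ z, (𝓝[(Kᶜ : Set ℂ)] z).NeBot := by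
    intro z
    rw [← mem_closure_iff_nhdsWithin_neBot, _root_.mem_closure_iff]
    intro o ho hzo
    exact nonempty_diff htd ho ⟨z, hzo⟩
  have hlim : ∀ z ∈ (Tᶜ : Set ℂ), ∃ t, Tendsto ψ (𝓝[(Kᶜ : Set ℂ)] z) (𝓝 t) := by
    intro z hz
    by_cases hzK : z ∉ K
    · exact ⟨ψ z, (hcont z hzK).tendsto.mono_left nhdsWithin_le_nhds⟩
    · rw [not_not] at hzK
      obtain ⟨ε, hε, hεb⟩ := Metric.mem_nhds_iff.mp (hTo.mem_nhds hz)
      obtain ⟨l, hl, hl2⟩ := exists_lift_on (f := fun w => β w - β p) isOpen_ball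
        (convex_ball z ε) ((hβ.mono hεb).sub continuousOn_const)
      obtain ⟨N, hNo, hzN, hNb, -, hNK⟩ := exists_lc hK htd hzK (ball_mem_nhds z hε)
      obtain ⟨w₀, hw₀⟩ := nonempty_diff htd hNo ⟨z, hzN⟩
      have hconst : ∀ w ∈ N \ K, ψ w - l w = ψ w₀ - l w₀ := by
        intro w hw
        refine const_of_int hNK (fun w => ψ w - l w) ?_ ?_ hw hw₀
        · intro u hu
          exact ((hcont u hu.2).sub (hl.continuousAt (isOpen_ball.mem_nhds
            (hNb hu.1)))).continuousWithinAt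
        · intro u hu
          apply exists_int_of_coe_eq
          rw [hψβ u hu.2, hl2 u (hNb hu.1)]
      refine ⟨l z + (ψ w₀ - l w₀), ?_⟩
      have h5 : Tendsto (fun w => l w + (ψ w₀ - l w₀)) (𝓝[(Kᶜ : Set ℂ)] z)
          (𝓝 (l z + (ψ w₀ - l w₀))) :=
        ((hl.continuousAt (isOpen_ball.mem_nhds (mem_ball_self hε))).tendsto.mono_left
          nhdsWithin_le_nhds).add_const _
      refine h5.congr' ?_
      filter_upwards [self_mem_nhdsWithin, mem_nhdsWithin_of_mem_nhds (hNo.mem_nhds hzN)]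
        with w hw1 hw2
      have := hconst w ⟨hw2, hw1⟩
      linarith
  have hext : ContinuousOn (extendFrom (Kᶜ : Set ℂ) ψ) Tᶜ :=
    continuousOn_extendFrom (fun z _ => mem_closure_iff_nhdsWithin_neBot.mpr (hdense z)) hlim
  have hext2 : ∀ z ∈ (Tᶜ : Set ℂ), ((extendFrom (Kᶜ : Set ℂ) ψ z : ℝ) : UnitAddCircle) =
      β z - β p := by
    intro z hz
    have := hdense z
    have l1 : Tendsto ψ (𝓝[(Kᶜ : Set ℂ)] z) (𝓝 (extendFrom (Kᶜ : Set ℂ) ψ z)) :=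
      tendsto_extendFrom (hlim z hz)
    have l2 : Tendsto (fun w => ((ψ w : ℝ) : UnitAddCircle)) (𝓝[(Kᶜ : Set ℂ)] z)
        (𝓝 ((extendFrom (Kᶜ : Set ℂ) ψ z : ℝ) : UnitAddCircle)) :=
      ((AddCircle.continuous_mk' (1 : ℝ)).tendsto _).comp l1
    have l3 : Tendsto (fun w => β w - β p) (𝓝[(Kᶜ : Set ℂ)] z) (𝓝 (β z - β p)) :=
      ((hβ.continuousAt (hTo.mem_nhds hz)).tendsto.mono_left nhdsWithin_le_nhds).sub_const _
    refine tendsto_nhds_unique l2 (l3.congr' ?_)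
    filter_upwards [self_mem_nhdsWithin] with w hw
    exact (hψβ w hw).symm
  -- the circle around `e₁`
  obtain ⟨s, hs, hsb⟩ : ∃ s > 0, ∀ z ∈ ball e₁ s, z ≠ e₂ ∧ z ≠ e₃ := by
    refine ⟨min (dist e₂ e₁) (dist e₃ e₁), lt_min (dist_pos.mpr h12.symm)
      (dist_pos.mpr h13.symm), fun z hz => ⟨?_, ?_⟩⟩
    · rintro rfl
      exact absurd (mem_ball.mp hz) (not_lt.mpr (min_le_left _ _))
    · rintro rfl
      exact absurd (mem_ball.mp hz) (not_lt.mpr (min_le_right _ _))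
  obtain ⟨l₂, hl₂, hl₂'⟩ := exists_lift_on (f := fun w => ang (e₂ - w)) isOpen_ball
    (convex_ball e₁ s) ((ang_rev_continuousOn e₂).mono (fun z hz => (hsb z hz).1))
  obtain ⟨l₃, hl₃, hl₃'⟩ := exists_lift_on (f := fun w => ang (e₃ - w)) isOpen_ball
    (convex_ball e₁ s) ((ang_rev_continuousOn e₃).mono (fun z hz => (hsb z hz).2))
  have hc1 : ∀ x, circ e₁ (s / 2) x ∈ ball e₁ s := by
    intro x
    rw [mem_ball, dist_circ e₁ (half_pos hs)]
    linarith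
  have hc2 : ∀ x, circ e₁ (s / 2) x ∈ (Tᶜ : Set ℂ) := by
    intro x hx
    rcases hx with hx | hx | hx
    · have := dist_circ e₁ (half_pos hs) x
      rw [hx, dist_self] at this
      linarith
    · exact (hsb _ (hc1 x)).1 hx
    · exact (hsb _ (hc1 x)).2 hx
  obtain ⟨c₀, -, hc₀⟩ := AddCircle.eq_coe_Ico (p := (1 : ℝ)) (β p - a • ang (-1))
  apply zsmul_id_liftable
  rw [mem_liftable_iff]
  have hcc := circ_continuous e₁ (s / 2)
  refine ⟨⟨fun x => extendFrom (Kᶜ : Set ℂ) ψ (circ e₁ (s / 2) x) + c₀ -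
    b * l₂ (circ e₁ (s / 2) x) + (a + b : ℤ) * l₃ (circ e₁ (s / 2) x), ?_⟩, fun x => ?_⟩
  · exact (((hext.comp_continuous hcc hc2).add continuous_const).sub
      (continuous_const.mul (hl₂.comp_continuous hcc hc1))).add
      (continuous_const.mul (hl₃.comp_continuous hcc hc1))
  · change ((extendFrom (Kᶜ : Set ℂ) ψ (circ e₁ (s / 2) x) + c₀ -
      b * l₂ (circ e₁ (s / 2) x) + (a + b : ℤ) * l₃ (circ e₁ (s / 2) x) : ℝ) :
      UnitAddCircle) = a • x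
    have hne' : circ e₁ (s / 2) x ≠ e₁ := fun h => hc2 x (by simp [T, h])
    rw [← zsmul_eq_mul, ← zsmul_eq_mul, AddCircle.coe_add, AddCircle.coe_sub, AddCircle.coe_add,
      AddCircle.coe_zsmul, AddCircle.coe_zsmul, hext2 _ (hc2 x), hl₂' _ (hc1 x), hl₃' _ (hc1 x),
      hc₀]
    have e5 := ang_neg_sub e₁ (circ e₁ (s / 2) x) hne'
    rw [circ_ang e₁ (half_pos hs)] at e5
    simp only [β]
    rw [e5, smul_add]
    abel

/-- Two pushes with independent displacements. -/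
theorem exists_independent (hK : IsCompact K) (htd : IsTotallyDisconnected K) (hp : p ∉ K)
    {e₁ e₂ e₃ : ℂ} (h1 : e₁ ∈ K) (h2 : e₂ ∈ K) (h3 : e₃ ∈ K) (h12 : e₁ ≠ e₂) (h13 : e₁ ≠ e₃)
    (h23 : e₂ ≠ e₃) :
    ∃ h Λ g M, Push K p p h Λ ∧ Push K p p g M ∧
      (Λ e₁ - Λ e₃) * (M e₂ - M e₃) - (Λ e₂ - Λ e₃) * (M e₁ - M e₃) ≠ 0 := by
  have hne : ∀ {e : ℂ}, e ∈ K → e ≠ p := fun {e} he h => hp (h ▸ he)
  have hint : ∀ {h : ℂ ≃ₜ ℂ} {Λ : ℂ → ℝ}, Push K p p h Λ → ∀ e ∈ K, ∀ e' ∈ K,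
      ∃ n : ℤ, Λ e - Λ e' = n := by
    rintro h Λ ⟨-, g2, -, g4⟩ e he e' he'
    apply exists_int_of_coe_eq
    have e1 := g4 e (hne he)
    have e2 := g4 e' (hne he')
    rw [g2 e he, sub_self] at e1
    rw [g2 e' he', sub_self] at e2
    rw [e1, e2]
  obtain ⟨h, Λ, hh, hu⟩ : ∃ h Λ, Push K p p h Λ ∧ Λ e₁ - Λ e₃ ≠ 0 := by
    by_contra hcon
    push Not at hcon
    have := push_rigid hK htd hp h1 h2 h3 h12 h13 1 0 (fun h Λ hh => by
      rw [hcon h Λ hh]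
      simp)
    exact one_ne_zero this
  obtain ⟨u₁, hu₁⟩ := hint hh e₁ h1 e₃ h3
  obtain ⟨u₂, hu₂⟩ := hint hh e₂ h2 e₃ h3
  have hu₁' : u₁ ≠ 0 := by
    rintro rfl
    rw [hu₁] at hu
    exact hu (by simp)
  by_contra hcon
  push Not at hcon
  have := push_rigid hK htd hp h2 h1 h3 h12.symm h23 u₁ (-u₂) (fun g M hg => by
    have := hcon h Λ g M hh hg
    rw [hu₁, hu₂] at this
    push_cast
    linarith)
  exact hu₁' this

end Pool.Agent.Helper2.Planar
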