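import Mathlib
import Pool.Agent.Helper2.Planar.Disp
import Pool.Agent.Helper2.Planar.PushRank

/-!
# Homeomorphisms fixing all the ends
-/

set_option autoImplicit false

open Topology unitInterval Set Filter Metric

namespace Pool.Agent.Helper2.Planar

open Pool.Agent.Helper2.Genus

namespace Frame

variable {E K : Set ℂ} {p : ℂ} (Φ : Frame E K p)

/-- `h` fixes all the ends and its displacement along `K` is `w`, up to a constant. -/
def Pure (h : (Eᶜ : Set ℂ) ≃ₜ (Eᶜ : Set ℂ)) (w : ℂ → ℝ) : Prop :=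
  h ∈ Φ.fix ∧ (∀ e ∈ K, Tendsto (fun x => (h x : ℂ))
    (comap (Subtype.val : (Eᶜ : Set ℂ) → ℂ) (𝓝 e)) (𝓝 e)) ∧
    ∃ φ, Φ.Disp h 1 φ ∧ ∀ e ∈ K, ∀ e' ∈ K, φ e - φ e' = w e - w e'

variable {Φ}

lemma Pure.one : Φ.Pure 1 0 := by
  refine ⟨Φ.fix.one_mem, fun e _ => tendsto_comap, 0, disp_one, ?_⟩
  intro e _ e' _
  rfl

lemma Pure.mul {g h : (Eᶜ : Set ℂ) ≃ₜ (Eᶜ : Set ℂ)} {w w' : ℂ → ℝ} (hg : Φ.Pure g w)
    (hh : Φ.Pure h w') : Φ.Pure (g * h) (fun z => w z + w' z) := by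
  obtain ⟨g1, g2, φ, g3, g4⟩ := hg
  obtain ⟨h1, h2, φ', h3, h4⟩ := hh
  obtain ⟨k, φ'', hd⟩ := Φ.exists_disp (Φ.fix.mul_mem g1 h1)
  obtain ⟨hk, n, hn⟩ := g3.mul h3 hd
  have hk1 : k = 1 := by rw [hk]; norm_num
  subst hk1
  refine ⟨Φ.fix.mul_mem g1 h1, ?_, φ'', hd, ?_⟩
  · intro e he
    have e1 : Tendsto h (comap (Subtype.val : (Eᶜ : Set ℂ) → ℂ) (𝓝 e))
        (comap (Subtype.val : (Eᶜ : Set ℂ) → ℂ) (𝓝 e)) := tendsto_comap_iff.mpr (h2 e he)
    exact (g2 e he).comp e1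
  · intro e he e' he'
    have e1 := hn e he e he (h2 e he)
    have e2 := hn e' he' e' he' (h2 e' he')
    have e3 := g4 e he e' he'
    have e4 := h4 e he e' he'
    push_cast at e1 e2
    linarith

lemma Pure.inv {h : (Eᶜ : Set ℂ) ≃ₜ (Eᶜ : Set ℂ)} {w : ℂ → ℝ} (hh : Φ.Pure h w) :
    Φ.Pure h⁻¹ (fun z => - w z) := by
  obtain ⟨h1, h2, φ', h3, h4⟩ := hh
  obtain ⟨k, φ, hd⟩ := Φ.exists_disp (Φ.fix.inv_mem h1)
  have h0 : Φ.Disp (h⁻¹ * h) 1 0 := by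
    rw [inv_mul_cancel]
    exact disp_one
  obtain ⟨hk, n, hn⟩ := hd.mul h3 h0
  have hk1 : k = 1 := by rw [mul_one] at hk; exact hk.symm
  subst hk1
  refine ⟨Φ.fix.inv_mem h1, ?_, φ, hd, ?_⟩
  · intro e he
    have e1 := Φ.D.inv_map h (Φ.K_notMem he) (Φ.K_notMem he) (tendsto_end_iff.mpr (h2 e he))
    exact tendsto_end_iff.mp e1
  · intro e he e' he'
    have e1 := hn e he e he (h2 e he)
    have e2 := hn e' he' e' he' (h2 e' he')
    have e4 := h4 e he e' he'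
    simp only [Pi.zero_apply] at e1 e2
    push_cast at e1 e2
    linarith

lemma Pure.npow {h : (Eᶜ : Set ℂ) ≃ₜ (Eᶜ : Set ℂ)} {w : ℂ → ℝ} (hh : Φ.Pure h w) (n : ℕ) :
    Φ.Pure (h ^ n) (fun z => n * w z) := by
  induction n with
  | zero =>
    rw [pow_zero]
    have : (fun z => ((0 : ℕ) : ℝ) * w z) = 0 := by
      ext z
      simp
    rw [this]
    exact Pure.one
  | succ n ih =>
    rw [pow_succ]
    have := ih.mul hh
    have e : (fun z => ((n + 1 : ℕ) : ℝ) * w z) = fun z => n * w z + w z := by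
      ext z
      push_cast
      ring
    rw [e]
    exact this

lemma Pure.zpow {h : (Eᶜ : Set ℂ) ≃ₜ (Eᶜ : Set ℂ)} {w : ℂ → ℝ} (hh : Φ.Pure h w) (n : ℤ) :
    Φ.Pure (h ^ n) (fun z => n * w z) := by
  rcases Int.eq_nat_or_neg n with ⟨m, rfl | rfl⟩
  · rw [zpow_natCast]
    simpa using hh.npow m
  · rw [zpow_neg, zpow_natCast]
    have := (hh.npow m).inv
    simpa using this

lemma Pure.le_len {h : (Eᶜ : Set ℂ) ≃ₜ (Eᶜ : Set ℂ)} {w : ℂ → ℝ} (hh : Φ.Pure h w) {e e' : ℂ}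
    (he : e ∈ K) (he' : e' ∈ K) : |w e - w e'| ≤ Φ.len h := by
  obtain ⟨h1, h2, φ', h3, h4⟩ := hh
  rw [← h4 e he e' he']
  exact h3.le_len he he'

/-- A push defines a homeomorphism of the complement of `E`. -/
theorem exists_pure_of_push {h : ℂ ≃ₜ ℂ} {Λ : ℂ → ℝ} (hh : Push K p p h Λ) :
    ∃ f : (Eᶜ : Set ℂ) ≃ₜ (Eᶜ : Set ℂ), Φ.Pure f Λ := by
  obtain ⟨h1, h2, h3, h4⟩ := hh
  have hiff : ∀ z, z ∈ (Eᶜ : Set ℂ) ↔ h z ∈ (Eᶜ : Set ℂ) := by
    intro z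
    rw [mem_compl_iff, mem_compl_iff, not_iff_not, Φ.hEK, Φ.hEK]
    constructor
    · rintro (rfl | hz)
      · exact Or.inl h1
      · right
        rw [h2 z hz]
        exact hz
    · rintro (hz | hz)
      · left
        rw [← h1] at hz
        exact h.injective hz
      · right
        have := h2 _ hz
        rw [h.injective this] at hz
        exact hz
  let f : (Eᶜ : Set ℂ) ≃ₜ (Eᶜ : Set ℂ) := h.subtype hiff
  have hf : ∀ x : (Eᶜ : Set ℂ), ((f x : (Eᶜ : Set ℂ)) : ℂ) = h x := fun x => rfl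
  have hend : ∀ e : OnePoint ℂ, h.onePointCongr e = e →
      Tendsto f (comap (toSphere E) (𝓝 e)) (comap (toSphere E) (𝓝 e)) := by
    intro e he
    rw [tendsto_comap_iff]
    have e1 : toSphere E ∘ f = h.onePointCongr ∘ toSphere E := rfl
    rw [e1]
    have e2 := h.onePointCongr.continuous.tendsto e
    rw [he] at e2
    exact e2.comp tendsto_comap
  refine ⟨f, ⟨?_, ?_⟩, ?_, fun z => Λ z + Φ.κ (h z) - Φ.κ z, ⟨?_, ?_⟩, ?_⟩
  · refine hend _ ?_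
    change ((h p : ℂ) : OnePoint ℂ) = _
    rw [h1]
  · exact hend _ rfl
  · intro e he
    refine tendsto_end_iff.mp (hend _ ?_)
    change ((h e : ℂ) : OnePoint ℂ) = _
    rw [h2 e he]
  · refine (h3.add (Φ.hκ.comp h.continuous.continuousOn (fun z hz hzp => ?_))).sub Φ.hκ
    rw [mem_singleton_iff, ← h1] at hzp
    exact hz (h.injective hzp)
  · intro x
    have e1 := h4 x (Φ.ne_of_notMem x.2)
    rw [hf, one_smul]
    simp only [Frame.a]
    rw [AddCircle.coe_sub, AddCircle.coe_add, e1]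
    abel
  · intro e he e' he'
    simp only [h2 e he, h2 e' he']
    ring

end Frame

end Pool.Agent.Helper2.Planar
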