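import Mathlib
import Pool.Agent.Helper2.Planar.DispNear
import Pool.Agent.Helper2.Planar.PureElt
import Pool.Agent.Helper2.Planar.Induce
import Pool.Agent.Helper2.Genus.Criterion

/-!
# Mapping class groups of planar surfaces with at least two isolated ends do not have two ends
-/

set_option autoImplicit false

open Topology unitInterval Set Filter Metric

namespace Pool.Agent.Helper2.Planar

open Pool.Agent.Helper2.Genus Pool.Agent.Helper50.Ends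

lemma abs_det_le {w₁ w₂ u₁ u₂ L : ℝ} (h1 : |w₁| ≤ L) (h2 : |w₂| ≤ L) :
    |w₁ * u₂ - w₂ * u₁| ≤ L * (|u₁| + |u₂|) := by
  calc |w₁ * u₂ - w₂ * u₁| ≤ |w₁ * u₂| + |w₂ * u₁| := abs_sub _ _
    _ = |w₁| * |u₂| + |w₂| * |u₁| := by rw [abs_mul, abs_mul]
    _ ≤ L * |u₂| + L * |u₁| := by gcongr
    _ = _ := by ring

theorem Frame.not_two {E K : Set ℂ} {p : ℂ} (Φ : Frame E K p) (hfin : Φ.fix.FiniteIndex)
    {e₁ e₂ e₃ : ℂ} (h1 : e₁ ∈ K) (h2 : e₂ ∈ K) (h3 : e₃ ∈ K) (h12 : e₁ ≠ e₂) (h13 : e₁ ≠ e₃)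
    (h23 : e₂ ≠ e₃) (H : Subgroup ((Eᶜ : Set ℂ) ≃ₜ (Eᶜ : Set ℂ))) (hH : H.FiniteIndex)
    (S : Set (MCG H)) (hS : CoarselyBounded S) (hgen : Subgroup.closure S = ⊤) :
    numEnds (cayley S) ≠ 2 := by
  classical
  have htdK : IsTotallyDisconnected K := fun t ht => Φ.htd t (ht.trans Φ.K_sub)
  obtain ⟨h, Λ, g, M, hh, hg, hdet⟩ := exists_independent Φ.hK htdK Φ.hpK h1 h2 h3 h12 h13 h23
  obtain ⟨f₀, hf₀⟩ := Frame.exists_pure_of_push (Φ := Φ) hh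
  obtain ⟨g₀, hg₀⟩ := Frame.exists_pure_of_push (Φ := Φ) hg
  set u₁ := Λ e₁ - Λ e₃ with hu₁
  set u₂ := Λ e₂ - Λ e₃ with hu₂
  set v₁ := M e₁ - M e₃ with hv₁
  set v₂ := M e₂ - M e₃ with hv₂
  have hlen : IsLen Φ.len Φ.fix := ⟨Frame.len_one, fun g hg => Frame.len_inv hg,
    fun g hg h hh => Frame.len_mul_le hg hh⟩
  have : Finite (((Eᶜ : Set ℂ) ≃ₜ (Eᶜ : Set ℂ)) ⧸ Φ.fix) := Subgroup.finite_quotient_of_finiteIndex
  have : Fintype (((Eᶜ : Set ℂ) ≃ₜ (Eᶜ : Set ℂ)) ⧸ Φ.fix) := Fintype.ofFinite _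
  obtain ⟨C, hC⟩ := hlen.le_ind
  obtain ⟨δ, hδ⟩ := exists_pseudometric hlen.ind (ind_near Φ.near_one tendsto_conj) H
  obtain ⟨m, hm0, -, hm⟩ := Subgroup.exists_pow_mem_of_index_ne_zero hH.index_ne_zero f₀
  obtain ⟨l, hl0, -, hl⟩ := Subgroup.exists_pow_mem_of_index_ne_zero hH.index_ne_zero g₀
  have hm0' : (0 : ℝ) < m := by exact_mod_cast hm0
  have hl0' : (0 : ℝ) < l := by exact_mod_cast hl0
  have hC0 : ∀ f ∈ Φ.fix, Φ.len f - C ≤ ind Φ.len Φ.fix f := fun f hf => by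
    have := hC f hf
    linarith
  have hupos : 0 < |u₁| + |u₂| := by
    by_contra hle
    rw [not_lt] at hle
    have e1 : |u₁| = 0 := le_antisymm (by linarith [abs_nonneg u₂]) (abs_nonneg _)
    have e2 : |u₂| = 0 := le_antisymm (by linarith [abs_nonneg u₁]) (abs_nonneg _)
    rw [abs_eq_zero] at e1 e2
    rw [e1, e2] at hdet
    exact hdet (by ring)
  refine not_two_of_far S hS hgen δ ((⟨f₀ ^ m, hm⟩ : H) : MCG H) ?_ ?_
  · intro R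
    set N : ℕ := ⌈(2 * (R + C)) / (|u₁| + |u₂|)⌉₊ with hN
    refine (Set.finite_Icc (-(N : ℤ)) N).subset ?_
    intro n hn
    have hn' : δ.d 1 (((⟨f₀ ^ m, hm⟩ : H) : MCG H) ^ n) ≤ R := hn
    rw [← QuotientGroup.mk_zpow, ← QuotientGroup.mk_one, hδ] at hn'
    have e1 : (((1 : H) : (Eᶜ : Set ℂ) ≃ₜ (Eᶜ : Set ℂ)))⁻¹ *
        (((⟨f₀ ^ m, hm⟩ : H) ^ n : H) : (Eᶜ : Set ℂ) ≃ₜ (Eᶜ : Set ℂ)) = f₀ ^ ((m : ℤ) * n) := by
      rw [Subgroup.coe_one, inv_one, one_mul, Subgroup.coe_zpow, zpow_mul, zpow_natCast]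
    rw [e1] at hn'
    have hp := hf₀.zpow ((m : ℤ) * n)
    have e2 := (hC0 _ hp.1).trans hn'
    have e3 := hp.le_len h1 h3
    have e4 := hp.le_len h2 h3
    simp only [← mul_sub, ← hu₁, ← hu₂, abs_mul] at e3 e4
    have e5 : |(((m : ℤ) * n : ℤ) : ℝ)| * (|u₁| + |u₂|) ≤ 2 * (R + C) := by
      rw [mul_add]
      linarith
    have e6 : |(n : ℝ)| ≤ |(((m : ℤ) * n : ℤ) : ℝ)| := by
      push_cast
      rw [abs_mul, abs_of_pos hm0']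
      have : (1 : ℝ) ≤ m := by exact_mod_cast Nat.one_le_iff_ne_zero.mpr (by omega)
      nlinarith [abs_nonneg (n : ℝ)]
    have e7 : |(n : ℝ)| ≤ (2 * (R + C)) / (|u₁| + |u₂|) := by
      rw [le_div_iff₀ hupos]
      exact (mul_le_mul_of_nonneg_right e6 hupos.le).trans e5
    have e8 : |(n : ℝ)| ≤ N := e7.trans (Nat.le_ceil _)
    have e9 := abs_le.mp e8
    constructor
    · have := e9.1
      exact_mod_cast this
    · have := e9.2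
      exact_mod_cast this
  · intro R
    set D := |u₁ * v₂ - u₂ * v₁| with hD
    have hDpos : 0 < D := abs_pos.mpr hdet
    set k : ℕ := ⌈((R + C) * (|u₁| + |u₂|)) / D⌉₊ + 1 with hk
    refine ⟨(((⟨g₀ ^ l, hl⟩ : H) ^ (k : ℤ) : H) : MCG H), fun n => ?_⟩
    rw [← QuotientGroup.mk_zpow, hδ]
    have e1 : ((((⟨f₀ ^ m, hm⟩ : H) ^ n : H) : (Eᶜ : Set ℂ) ≃ₜ (Eᶜ : Set ℂ)))⁻¹ *
        (((⟨g₀ ^ l, hl⟩ : H) ^ (k : ℤ) : H) : (Eᶜ : Set ℂ) ≃ₜ (Eᶜ : Set ℂ)) =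
        f₀ ^ (-((m : ℤ) * n)) * g₀ ^ ((l : ℤ) * k) := by
      rw [Subgroup.coe_zpow, Subgroup.coe_zpow, zpow_neg, zpow_mul, zpow_mul, zpow_natCast f₀,
        zpow_natCast g₀]
    rw [e1]
    have hp := (hf₀.zpow (-((m : ℤ) * n))).mul (hg₀.zpow ((l : ℤ) * k))
    have e2 := hC0 _ hp.1
    have e3 := hp.le_len h1 h3
    have e4 := hp.le_len h2 h3
    have e5 := abs_det_le (u₁ := u₁) (u₂ := u₂) e3 e4
    have e6 : (((-((m : ℤ) * n) : ℤ) : ℝ) * Λ e₁ + (((l : ℤ) * k : ℤ) : ℝ) * M e₁ -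
        ((((-((m : ℤ) * n) : ℤ) : ℝ) * Λ e₃ + (((l : ℤ) * k : ℤ) : ℝ) * M e₃))) * u₂ -
        (((-((m : ℤ) * n) : ℤ) : ℝ) * Λ e₂ + (((l : ℤ) * k : ℤ) : ℝ) * M e₂ -
        ((((-((m : ℤ) * n) : ℤ) : ℝ) * Λ e₃ + (((l : ℤ) * k : ℤ) : ℝ) * M e₃))) * u₁ =
        -((l : ℝ) * k) * (u₁ * v₂ - u₂ * v₁) := by
      rw [hu₁, hu₂, hv₁, hv₂]
      push_cast
      ring
    rw [e6, abs_mul, ← hD, abs_neg, abs_mul, abs_of_pos hl0', Nat.abs_cast] at e5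
    by_contra hle
    rw [not_lt] at hle
    have e7 : Φ.len (f₀ ^ (-((m : ℤ) * n)) * g₀ ^ ((l : ℤ) * k)) ≤ R + C := by linarith
    have e8 : (l : ℝ) * k * D ≤ (R + C) * (|u₁| + |u₂|) :=
      e5.trans (mul_le_mul_of_nonneg_right e7 hupos.le)
    have e9 : (k : ℝ) ≤ ((R + C) * (|u₁| + |u₂|)) / D := by
      rw [le_div_iff₀ hDpos]
      have hl1 : (1 : ℝ) ≤ l := by exact_mod_cast Nat.one_le_iff_ne_zero.mpr (by omega)
      have : (k : ℝ) * D ≤ l * k * D := by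
        rw [mul_assoc]
        exact le_mul_of_one_le_left (by positivity) hl1
      linarith
    have e10 := e9.trans (Nat.le_ceil _)
    have e11 : k ≤ ⌈((R + C) * (|u₁| + |u₂|)) / D⌉₊ := by exact_mod_cast e10
    omega

end Pool.Agent.Helper2.Planar
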