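import Mathlib
import Pool.Agent.Helper2.Planar.Main

/-!
# The sphere minus a Cantor set and finitely many, at least two, points
-/

set_option autoImplicit false

open Topology unitInterval Set Filter Metric

namespace Pool.Agent.Helper2.Planar

open Pool.Agent.Helper2.Genus Pool.Agent.Helper50.Ends

/-- The complement in the plane of a Cantor set `C` and a nonempty finite set `F`. -/
theorem not_two_of_plane {C F : Set ℂ} (hC : IsCompact C) (htd : IsTotallyDisconnected C)
    (hperf : Preperfect C) (hCne : C.Nonempty) (hF : F.Finite) (hFne : F.Nonempty)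
    (hdisj : Disjoint C F)
    (H : Subgroup (((C ∪ F)ᶜ : Set ℂ) ≃ₜ ((C ∪ F)ᶜ : Set ℂ))) (hH : H.FiniteIndex)
    (S : Set (MCG H)) (hS : CoarselyBounded S) (hgen : Subgroup.closure S = ⊤) :
    numEnds (cayley S) ≠ 2 := by
  obtain ⟨p, hp⟩ := hFne
  have hpC : p ∉ C := fun h => hdisj.le_bot ⟨h, hp⟩
  have hE : IsCompact (C ∪ F) := hC.union hF.isCompact
  have htdF : IsTotallyDisconnected F := hF.countable.isTotallyDisconnected
  have htdE : IsTotallyDisconnected (C ∪ F) := by
    intro t ht hpre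
    rcases isPreconnected_iff_subset_of_disjoint_closed.mp hpre C F hC.isClosed hF.isClosed ht
      (by rw [hdisj.inter_eq, inter_empty]) with h | h
    · exact htd t h hpre
    · exact htdF t h hpre
  have hK : IsCompact (C ∪ (F \ {p})) := hC.union (hF.subset sdiff_subset).isCompact
  have hpK : p ∉ C ∪ (F \ {p}) := by
    rintro (h | h)
    · exact hpC h
    · exact h.2 rfl
  have hEK : ∀ z, z ∈ C ∪ F ↔ z = p ∨ z ∈ C ∪ (F \ {p}) := by
    intro z
    constructor
    · rintro (h | h)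
      · exact Or.inr (Or.inl h)
      · by_cases hz : z = p
        · exact Or.inl hz
        · exact Or.inr (Or.inr ⟨h, hz⟩)
    · rintro (rfl | h | h)
      · exact Or.inr hp
      · exact Or.inl h
      · exact Or.inr h.1
  have htdK : IsTotallyDisconnected (C ∪ (F \ {p})) := fun t ht =>
    htdE t (ht.trans (union_subset_union_right C sdiff_subset))
  obtain ⟨κ, O, hκ, hO, hKO, hpO, hzero⟩ := exists_kappa hK htdK hpK
  let Φ : Frame (C ∪ F) (C ∪ (F \ {p})) p := ⟨hE, htdE, hK, hEK, hpK, κ, O, hκ, hO, hKO, hpO, hzero⟩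
  have hfin : {e' : OnePoint ℂ | e' ∉ range (toSphere (C ∪ F)) ∧
      ∃ N ∈ 𝓝 e', N ∩ (range (toSphere (C ∪ F)))ᶜ ⊆ {e'}}.Finite := by
    refine ((hF.image ((↑) : ℂ → OnePoint ℂ)).insert OnePoint.infty).subset ?_
    rintro e' ⟨he', N, hN, hNe⟩
    rcases notMem_range_iff.mp he' with rfl | ⟨z, hz, rfl⟩
    · exact Or.inl rfl
    · right
      rcases hz with hz | hz
      · exfalso
        have h1 := accPt_iff_nhds.mp (hperf z hz) _
          (OnePoint.continuous_coe.continuousAt.preimage_mem_nhds hN)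
        obtain ⟨y, ⟨hy1, hy2⟩, hy3⟩ := h1
        have h2 : ((y : ℂ) : OnePoint ℂ) ∈ N ∩ (range (toSphere (C ∪ F)))ᶜ :=
          ⟨hy1, notMem_range_iff.mpr (Or.inr ⟨y, Or.inl hy2, rfl⟩)⟩
        exact hy3 (OnePoint.coe_injective (hNe h2))
      · exact ⟨z, hz, rfl⟩
  have hfix : Φ.fix.FiniteIndex := by
    have h1 := endStab_finiteIndex Φ.D Φ.p_notMem Φ.p_isolated hfin
    have h2 := endStab_finiteIndex Φ.D Φ.infty_notMem Φ.infty_isolated hfin
    unfold Frame.fix
    infer_instance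
  obtain ⟨e₁, he₁⟩ := hCne
  obtain ⟨e₂, ⟨-, he₂⟩, h21⟩ := accPt_iff_nhds.mp (hperf e₁ he₁) univ univ_mem
  obtain ⟨e₃, ⟨h32, he₃⟩, h31⟩ := accPt_iff_nhds.mp (hperf e₁ he₁) {e₂}ᶜ
    (isOpen_compl_singleton.mem_nhds h21.symm)
  exact Φ.not_two hfix (Or.inl he₁) (Or.inl he₂) (Or.inl he₃) h21.symm h31.symm
    (fun h => h32 h.symm) H hH S hS hgen

end Pool.Agent.Helper2.Planar
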